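import Pool.Agent.P.MP_c9efbf_co.Basic

/-! Barycentric coordinates on labelled triangles, and the checkers used on the data. -/

namespace Pool.Agent.P.MP_c9efbf_co

open Set

abbrev Z2 := ℤ × ℤ

structure Tri where
  f : Fin 13
  a : Fin 20
  b : Fin 20
  c : Fin 20
  pa : Z3
  pb : Z3
  pc : Z3
  qa : Z2
  qb : Z2
  qc : Z2
  c3 : List Z3
  c2 : List Z2

def bary (t : Tri) (s : Fin 3 → ℝ) (v : Fin 20) : ℝ :=
  (if v = t.a then s 0 else 0) + (if v = t.b then s 1 else 0) + (if v = t.c then s 2 else 0)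

def ev (t : Tri) (s : Fin 3 → ℝ) (h : Fin 20 → ℝ) : ℝ :=
  s 0 * h t.a + s 1 * h t.b + s 2 * h t.c

theorem ev_eq_sum (t : Tri) (s : Fin 3 → ℝ) (h : Fin 20 → ℝ) :
    ev t s h = ∑ v, bary t s v * h v := by
  simp [ev, bary, add_mul, Finset.sum_add_distrib]

theorem ev_congr {t u : Tri} {s s' : Fin 3 → ℝ} (h : bary t s = bary u s') (g : Fin 20 → ℝ) :
    ev t s g = ev u s' g := by
  rw [ev_eq_sum, ev_eq_sum, h]

def Tri.has (t : Tri) (v : Fin 20) : Prop := v = t.a ∨ v = t.b ∨ v = t.c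

instance (t : Tri) (v : Fin 20) : Decidable (t.has v) := by unfold Tri.has; infer_instance

theorem bary_eq_of {t u : Tri} {s s' : Fin 3 → ℝ} (hab : t.a ≠ t.b) (hac : t.a ≠ t.c)
    (hbc : t.b ≠ t.c) (hsum : s 0 + s 1 + s 2 = s' 0 + s' 1 + s' 2)
    (ha : s' 0 ≠ 0 → t.has u.a) (hb : s' 1 ≠ 0 → t.has u.b) (hc : s' 2 ≠ 0 → t.has u.c)
    (h1 h2 : Fin 20 → ℝ)
    (hdet : (h1 t.b - h1 t.a) * (h2 t.c - h2 t.a) - (h2 t.b - h2 t.a) * (h1 t.c - h1 t.a) ≠ 0)
    (e1 : ev t s h1 = ev u s' h1) (e2 : ev t s h2 = ev u s' h2) : bary t s = bary u s' := by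
  have hz : ∀ v, ¬ t.has v → bary u s' v = 0 := by
    intro v hv
    have k0 : (if v = u.a then s' 0 else 0) = 0 := by
      split_ifs with h
      · by_contra h'; exact hv (h ▸ ha h')
      · rfl
    have k1 : (if v = u.b then s' 1 else 0) = 0 := by
      split_ifs with h
      · by_contra h'; exact hv (h ▸ hb h')
      · rfl
    have k2 : (if v = u.c then s' 2 else 0) = 0 := by
      split_ifs with h
      · by_contra h'; exact hv (h ▸ hc h')
      · rfl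
    simp [bary, k0, k1, k2]
  have key : ∀ h : Fin 20 → ℝ, ev u s' h =
      bary u s' t.a * h t.a + bary u s' t.b * h t.b + bary u s' t.c * h t.c := by
    intro h
    rw [ev_eq_sum, ← Finset.sum_subset (Finset.subset_univ {t.a, t.b, t.c})]
    · rw [Finset.sum_insert (by simp [hab, hac]), Finset.sum_insert (by simp [hbc]),
        Finset.sum_singleton, add_assoc]
    · intro v _ hv
      rw [hz v (by simpa [Tri.has] using hv), zero_mul]
  have e0 := key fun _ => 1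
  rw [key] at e1 e2
  simp only [ev, mul_one] at e0 e1 e2
  set x := bary u s' t.a
  set y := bary u s' t.b
  set z := bary u s' t.c
  have hx : x = s 0 + s 1 + s 2 - y - z := by linarith
  have hy : s 1 = y := by
    apply mul_left_cancel₀ hdet
    rw [hx] at e1 e2
    linear_combination (h2 t.c - h2 t.a) * e1 - (h1 t.c - h1 t.a) * e2
  have hz' : s 2 = z := by
    apply mul_left_cancel₀ hdet
    rw [hx] at e1 e2
    linear_combination (h1 t.b - h1 t.a) * e2 - (h2 t.b - h2 t.a) * e1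
  have hx' : s 0 = x := by linarith
  funext v
  by_cases hv : t.has v
  · rcases hv with rfl | rfl | rfl
    · change _ = x
      simp [bary, hab, hac, hx']
    · change _ = y
      simp [bary, hab.symm, hbc, hy]
    · change _ = z
      simp [bary, hac.symm, hbc.symm, hz']
  · rw [hz v hv]
    simp only [Tri.has, not_or] at hv
    simp [bary, hv.1, hv.2.1, hv.2.2]

/-- If a weighted mean of numbers `≤ c` equals a weighted mean of numbers `≥ c`, the second mean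
only charges numbers equal to `c`. -/
theorem supp_of_sep {s s' : Fin 3 → ℝ} (hs : s ∈ stdSimplex ℝ (Fin 3))
    (hs' : s' ∈ stdSimplex ℝ (Fin 3)) {x0 x1 x2 y0 y1 y2 c : ℝ} (a0 : x0 ≤ c) (a1 : x1 ≤ c)
    (a2 : x2 ≤ c) (b0 : c ≤ y0) (b1 : c ≤ y1) (b2 : c ≤ y2)
    (e : s 0 * x0 + s 1 * x1 + s 2 * x2 = s' 0 * y0 + s' 1 * y1 + s' 2 * y2) :
    (s' 0 ≠ 0 → y0 = c) ∧ (s' 1 ≠ 0 → y1 = c) ∧ (s' 2 ≠ 0 → y2 = c) := by
  have h1 := hs.2
  have h2 := hs'.2
  rw [Fin.sum_univ_three] at h1 h2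
  have p0 := mul_nonneg (hs.1 0) (sub_nonneg.2 a0)
  have p1 := mul_nonneg (hs.1 1) (sub_nonneg.2 a1)
  have p2 := mul_nonneg (hs.1 2) (sub_nonneg.2 a2)
  have q0 := mul_nonneg (hs'.1 0) (sub_nonneg.2 b0)
  have q1 := mul_nonneg (hs'.1 1) (sub_nonneg.2 b1)
  have q2 := mul_nonneg (hs'.1 2) (sub_nonneg.2 b2)
  have tot : s 0 * (c - x0) + s 1 * (c - x1) + s 2 * (c - x2) +
      (s' 0 * (y0 - c) + s' 1 * (y1 - c) + s' 2 * (y2 - c)) = 0 := by
    linear_combination c * h1 - c * h2 - e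
  refine ⟨fun h => ?_, fun h => ?_, fun h => ?_⟩
  · have : s' 0 * (y0 - c) = 0 := by linarith
    linarith [(mul_eq_zero.1 this).resolve_left h]
  · have : s' 1 * (y1 - c) = 0 := by linarith
    linarith [(mul_eq_zero.1 this).resolve_left h]
  · have : s' 2 * (y2 - c) = 0 := by linarith
    linarith [(mul_eq_zero.1 this).resolve_left h]

def okv (c x : ℤ) (sh : Bool) : Bool := decide (c < x) || (decide (c = x) && sh)

theorem okv_spec {c x : ℤ} {sh : Bool} (h : okv c x sh = true) :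
    c ≤ x ∧ ((x : ℝ) = c → sh = true) := by
  simp only [okv, Bool.or_eq_true, decide_eq_true_eq, Bool.and_eq_true] at h
  rcases h with h | ⟨h, h'⟩
  · refine ⟨h.le, fun h' => ?_⟩
    have : x = c := by exact_mod_cast h'
    omega
  · exact ⟨h.le, fun _ => h'⟩

def max3 (x y z : ℤ) : ℤ := max x (max y z)

def check3 (t u : Tri) (l : Z3) : Bool :=
  okv (max3 (dot l t.pa) (dot l t.pb) (dot l t.pc)) (dot l u.pa) (decide (t.has u.a)) &&
  okv (max3 (dot l t.pa) (dot l t.pb) (dot l t.pc)) (dot l u.pb) (decide (t.has u.b)) &&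
  okv (max3 (dot l t.pa) (dot l t.pb) (dot l t.pc)) (dot l u.pc) (decide (t.has u.c))

def dot2 (l q : Z2) : ℤ := l.1 * q.1 + l.2 * q.2

def sh2 (t : Tri) (v : Fin 20) (q : Z2) : Bool :=
  (decide (v = t.a) && decide (q = t.qa)) || (decide (v = t.b) && decide (q = t.qb)) ||
    (decide (v = t.c) && decide (q = t.qc))

def add2 (q z : Z2) : Z2 := (q.1 + z.1, q.2 + z.2)

def check2 (t u : Tri) (z l : Z2) : Bool :=
  okv (max3 (dot2 l t.qa) (dot2 l t.qb) (dot2 l t.qc)) (dot2 l (add2 u.qa z))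
    (sh2 t u.a (add2 u.qa z)) &&
  okv (max3 (dot2 l t.qa) (dot2 l t.qb) (dot2 l t.qc)) (dot2 l (add2 u.qb z))
    (sh2 t u.b (add2 u.qb z)) &&
  okv (max3 (dot2 l t.qa) (dot2 l t.qb) (dot2 l t.qc)) (dot2 l (add2 u.qc z))
    (sh2 t u.c (add2 u.qc z))

def lift (t : Tri) (v : Fin 20) : Z2 := if v = t.a then t.qa else if v = t.b then t.qb else t.qc

def consv (t u : Tri) (z : Z2) (v : Fin 20) : Bool :=
  !(decide (u.has v)) || decide (lift t v = add2 (lift u v) z)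

def cons (t u : Tri) (z : Z2) : Bool := consv t u z t.a && consv t u z t.b && consv t u z t.c

def zs : List Z2 := [(0, 0), (7, 0), (-7, 0), (0, 4), (7, 4), (-7, 4), (0, -4), (7, -4), (-7, -4)]

/-- The point of space with barycentric coordinates `s` in the triangle `t`. -/
def fpt (t : Tri) (s : Fin 3 → ℝ) : E3 := s 0 • pt t.pa + s 1 • pt t.pb + s 2 • pt t.pc

/-- The first coordinate of the point of the plane with barycentric coordinates `s`. -/
def gx (t : Tri) (s : Fin 3 → ℝ) : ℝ := s 0 * t.qa.1 + s 1 * t.qb.1 + s 2 * t.qc.1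

/-- The second coordinate of the point of the plane with barycentric coordinates `s`. -/
def gy (t : Tri) (s : Fin 3 → ℝ) : ℝ := s 0 * t.qa.2 + s 1 * t.qb.2 + s 2 * t.qc.2

/-- Well-formedness of a triangle relative to the vertex positions `p`. -/
def Tri.good (p : Fin 20 → Z3) (t : Tri) : Prop :=
  t.a ≠ t.b ∧ t.a ≠ t.c ∧ t.b ≠ t.c ∧ p t.a = t.pa ∧ p t.b = t.pb ∧ p t.c = t.pc ∧
    det2 (pr t.pa) (pr t.pb) (pr t.pc) ≠ 0 ∧ det2 t.qa t.qb t.qc ≠ 0 ∧
    0 ≤ t.qa.1 ∧ t.qa.1 ≤ 10 ∧ 0 ≤ t.qb.1 ∧ t.qb.1 ≤ 10 ∧ 0 ≤ t.qc.1 ∧ t.qc.1 ≤ 10 ∧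
    0 ≤ t.qa.2 ∧ t.qa.2 ≤ 4 ∧ 0 ≤ t.qb.2 ∧ t.qb.2 ≤ 4 ∧ 0 ≤ t.qc.2 ∧ t.qc.2 ≤ 4

instance (p : Fin 20 → Z3) (t : Tri) : Decidable (t.good p) := by
  unfold Tri.good; infer_instance

variable {p : Fin 20 → Z3} {t u : Tri} {s s' : Fin 3 → ℝ}

theorem fpt_apply (ht : t.good p) (s : Fin 3 → ℝ) (k : Fin 3) :
    fpt t s k = ev t s fun v => pt (p v) k := by
  obtain ⟨-, -, -, h1, h2, h3, -⟩ := ht
  simp [fpt, ev, h1, h2, h3]

theorem fpt_eq_of_bary (ht : t.good p) (hu : u.good p) (h : bary t s = bary u s') :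
    fpt t s = fpt u s' := by
  funext k
  rw [fpt_apply ht, fpt_apply hu, ev_congr h]

theorem le_max3 (x y z : ℤ) : x ≤ max3 x y z ∧ y ≤ max3 x y z ∧ z ≤ max3 x y z := by
  unfold max3; omega

theorem bary_eq_of_fpt (ht : t.good p) (hu : u.good p) (hs : s ∈ stdSimplex ℝ (Fin 3))
    (hs' : s' ∈ stdSimplex ℝ (Fin 3)) {l : Z3} (hl : check3 t u l = true)
    (h : fpt t s = fpt u s') : bary t s = bary u s' := by
  simp only [check3, Bool.and_eq_true] at hl
  obtain ⟨⟨k0, k1⟩, k2⟩ := hl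
  obtain ⟨m0, m1, m2⟩ := le_max3 (dot l t.pa) (dot l t.pb) (dot l t.pc)
  have e := congrArg (lin l) h
  simp only [fpt, map_add, map_smul, lin_pt, smul_eq_mul] at e
  obtain ⟨r0, r1, r2⟩ := supp_of_sep hs hs'
    (c := (max3 (dot l t.pa) (dot l t.pb) (dot l t.pc) : ℤ))
    (by exact_mod_cast m0) (by exact_mod_cast m1) (by exact_mod_cast m2)
    (by exact_mod_cast (okv_spec k0).1) (by exact_mod_cast (okv_spec k1).1)
    (by exact_mod_cast (okv_spec k2).1) e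
  have h1 := hs.2
  have h2 := hs'.2
  rw [Fin.sum_univ_three] at h1 h2
  refine bary_eq_of ht.1 ht.2.1 ht.2.2.1 (by rw [h1, h2])
    (fun h => by simpa using (okv_spec k0).2 (r0 h))
    (fun h => by simpa using (okv_spec k1).2 (r1 h))
    (fun h => by simpa using (okv_spec k2).2 (r2 h))
    (fun v => pt (p v) 0) (fun v => pt (p v) 1) ?_ ?_ ?_
  · obtain ⟨-, -, -, h1, h2, h3, h4, -⟩ := ht
    simp only [h1, h2, h3, pt_zero, pt_one]
    simp only [det2, pr] at h4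
    exact_mod_cast h4
  · rw [← fpt_apply ht, ← fpt_apply hu, h]
  · rw [← fpt_apply ht, ← fpt_apply hu, h]

theorem lift_a (t : Tri) : lift t t.a = t.qa := by simp [lift]

theorem lift_b (ht : t.good p) : lift t t.b = t.qb := by simp [lift, ht.1.symm]

theorem lift_c (ht : t.good p) : lift t t.c = t.qc := by
  simp [lift, ht.2.1.symm, ht.2.2.1.symm]

theorem sh2_spec (ht : t.good p) {v : Fin 20} {q : Z2} (h : sh2 t v q = true) :
    t.has v ∧ lift t v = q := by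
  simp only [sh2, Bool.or_eq_true, Bool.and_eq_true, decide_eq_true_eq] at h
  rcases h with (⟨rfl, rfl⟩ | ⟨rfl, rfl⟩) | ⟨rfl, rfl⟩
  · exact ⟨Or.inl rfl, lift_a t⟩
  · exact ⟨Or.inr (Or.inl rfl), lift_b ht⟩
  · exact ⟨Or.inr (Or.inr rfl), lift_c ht⟩

theorem gx_eq (ht : t.good p) (s : Fin 3 → ℝ) : gx t s = ev t s fun v => ((lift t v).1 : ℝ) := by
  simp [gx, ev, lift_a, lift_b ht, lift_c ht]

theorem gy_eq (ht : t.good p) (s : Fin 3 → ℝ) : gy t s = ev t s fun v => ((lift t v).2 : ℝ) := by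
  simp [gy, ev, lift_a, lift_b ht, lift_c ht]

theorem bary_eq_of_g (ht : t.good p) (hs : s ∈ stdSimplex ℝ (Fin 3))
    (hs' : s' ∈ stdSimplex ℝ (Fin 3)) {z l : Z2} (hl : check2 t u z l = true)
    (hx : gx t s = gx u s' + z.1) (hy : gy t s = gy u s' + z.2) : bary t s = bary u s' := by
  simp only [check2, Bool.and_eq_true] at hl
  obtain ⟨⟨k0, k1⟩, k2⟩ := hl
  obtain ⟨m0, m1, m2⟩ := le_max3 (dot2 l t.qa) (dot2 l t.qb) (dot2 l t.qc)
  have h1 := hs.2
  have h2 := hs'.2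
  rw [Fin.sum_univ_three] at h1 h2
  have e : s 0 * (dot2 l t.qa : ℤ) + s 1 * (dot2 l t.qb : ℤ) + s 2 * (dot2 l t.qc : ℤ) =
      s' 0 * (dot2 l (add2 u.qa z) : ℤ) + s' 1 * (dot2 l (add2 u.qb z) : ℤ) +
        s' 2 * (dot2 l (add2 u.qc z) : ℤ) := by
    simp only [dot2, add2, gx, gy] at hx hy ⊢
    push_cast
    linear_combination (l.1 : ℝ) * hx + (l.2 : ℝ) * hy - (l.1 * z.1 + l.2 * z.2 : ℝ) * h2
  obtain ⟨r0, r1, r2⟩ := supp_of_sep hs hs'
    (c := (max3 (dot2 l t.qa) (dot2 l t.qb) (dot2 l t.qc) : ℤ))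
    (by exact_mod_cast m0) (by exact_mod_cast m1) (by exact_mod_cast m2)
    (by exact_mod_cast (okv_spec k0).1) (by exact_mod_cast (okv_spec k1).1)
    (by exact_mod_cast (okv_spec k2).1) e
  have t0 := fun h => sh2_spec ht ((okv_spec k0).2 (r0 h))
  have t1 := fun h => sh2_spec ht ((okv_spec k1).2 (r1 h))
  have t2 := fun h => sh2_spec ht ((okv_spec k2).2 (r2 h))
  have w0 : ∀ φ : Z2 → ℝ, s' 0 * φ (lift t u.a) = s' 0 * φ (add2 u.qa z) := fun φ => by
    by_cases h : s' 0 = 0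
    · simp [h]
    · rw [(t0 h).2]
  have w1 : ∀ φ : Z2 → ℝ, s' 1 * φ (lift t u.b) = s' 1 * φ (add2 u.qb z) := fun φ => by
    by_cases h : s' 1 = 0
    · simp [h]
    · rw [(t1 h).2]
  have w2 : ∀ φ : Z2 → ℝ, s' 2 * φ (lift t u.c) = s' 2 * φ (add2 u.qc z) := fun φ => by
    by_cases h : s' 2 = 0
    · simp [h]
    · rw [(t2 h).2]
  refine bary_eq_of ht.1 ht.2.1 ht.2.2.1 (by rw [h1, h2]) (fun h => (t0 h).1) (fun h => (t1 h).1)
    (fun h => (t2 h).1) (fun v => ((lift t v).1 : ℝ)) (fun v => ((lift t v).2 : ℝ)) ?_ ?_ ?_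
  · simp only [lift_a, lift_b ht, lift_c ht]
    have h4 := ht.2.2.2.2.2.2.2.1
    simp only [det2] at h4
    exact_mod_cast h4
  · rw [← gx_eq ht, hx]
    have a0 := w0 fun q => (q.1 : ℝ)
    have a1 := w1 fun q => (q.1 : ℝ)
    have a2 := w2 fun q => (q.1 : ℝ)
    simp only [ev, gx, add2] at a0 a1 a2 ⊢
    push_cast at a0 a1 a2
    linear_combination -a0 - a1 - a2 - (z.1 : ℝ) * h2
  · rw [← gy_eq ht, hy]
    have a0 := w0 fun q => (q.2 : ℝ)
    have a1 := w1 fun q => (q.2 : ℝ)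
    have a2 := w2 fun q => (q.2 : ℝ)
    simp only [ev, gy, add2] at a0 a1 a2 ⊢
    push_cast at a0 a1 a2
    linear_combination -a0 - a1 - a2 - (z.2 : ℝ) * h2

theorem has_of_bary_ne {v : Fin 20} (h : bary u s' v ≠ 0) : u.has v := by
  by_contra hv
  simp only [Tri.has, not_or] at hv
  simp [bary, hv.1, hv.2.1, hv.2.2] at h

theorem g_eq_of_bary (ht : t.good p) (hu : u.good p) (hs' : s' ∈ stdSimplex ℝ (Fin 3)) {z : Z2}
    (hz : cons t u z = true) (h : bary t s = bary u s') :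
    gx t s = gx u s' + z.1 ∧ gy t s = gy u s' + z.2 := by
  have h2 := hs'.2
  rw [Fin.sum_univ_three] at h2
  simp only [cons, consv, Bool.and_eq_true, Bool.or_eq_true, Bool.not_eq_true',
    decide_eq_false_iff_not, decide_eq_true_eq] at hz
  obtain ⟨⟨k0, k1⟩, k2⟩ := hz
  have key : ∀ v, bary u s' v ≠ 0 → lift t v = add2 (lift u v) z := by
    intro v hv
    have h1 := has_of_bary_ne hv
    have h3 : t.has v := has_of_bary_ne (h ▸ hv)
    rcases h3 with rfl | rfl | rfl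
    · exact k0.resolve_left (not_not.2 h1)
    · exact k1.resolve_left (not_not.2 h1)
    · exact k2.resolve_left (not_not.2 h1)
  have key2 : ∀ φ : Z2 → ℝ, ev t s (fun v => φ (lift t v)) =
      ev u s' (fun v => φ (add2 (lift u v) z)) := by
    intro φ
    rw [ev_eq_sum, ev_eq_sum, h]
    refine Finset.sum_congr rfl fun v _ => ?_
    by_cases hv : bary u s' v = 0
    · simp [hv]
    · rw [key v hv]
  constructor
  · rw [gx_eq ht, gx_eq hu, key2 fun q => (q.1 : ℝ)]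
    simp only [ev, add2]
    push_cast
    linear_combination (z.1 : ℝ) * h2
  · rw [gy_eq ht, gy_eq hu, key2 fun q => (q.2 : ℝ)]
    simp only [ev, add2]
    push_cast
    linear_combination (z.2 : ℝ) * h2

theorem g_bounds (ht : t.good p) (hs : s ∈ stdSimplex ℝ (Fin 3)) :
    0 ≤ gx t s ∧ gx t s ≤ 10 ∧ 0 ≤ gy t s ∧ gy t s ≤ 4 := by
  obtain ⟨-, -, -, -, -, -, -, -, a0, a1, b0, b1, c0, c1, d0, d1, e0, e1, f0, f1⟩ := ht
  have h1 := hs.2
  rw [Fin.sum_univ_three] at h1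
  have s0 := hs.1 0
  have s1 := hs.1 1
  have s2 := hs.1 2
  rw [← Int.cast_le (R := ℝ)] at a0 a1 b0 b1 c0 c1 d0 d1 e0 e1 f0 f1
  push_cast at a0 a1 b0 b1 c0 c1 d0 d1 e0 e1 f0 f1
  simp only [gx, gy]
  refine ⟨by positivity, ?_, by positivity, ?_⟩
  · nlinarith [mul_nonneg s0 (sub_nonneg.2 a1), mul_nonneg s1 (sub_nonneg.2 b1),
      mul_nonneg s2 (sub_nonneg.2 c1)]
  · nlinarith [mul_nonneg s0 (sub_nonneg.2 d1), mul_nonneg s1 (sub_nonneg.2 e1),
      mul_nonneg s2 (sub_nonneg.2 f1)]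

/-- A point of the plane on the inner side of the three sides of a triangle lies in it. -/
theorem tri2 (ax ay bx b_y cx cy σ : ℤ) (hσ : 0 < σ * det2 (ax, ay) (bx, b_y) (cx, cy)) (x y : ℝ)
    (h0 : 0 ≤ (σ : ℝ) * ((bx - x) * (cy - y) - (b_y - y) * (cx - x)))
    (h1 : 0 ≤ (σ : ℝ) * ((cx - x) * (ay - y) - (cy - y) * (ax - x)))
    (h2 : 0 ≤ (σ : ℝ) * ((ax - x) * (b_y - y) - (ay - y) * (bx - x))) :
    ∃ s ∈ stdSimplex ℝ (Fin 3), s 0 * ax + s 1 * bx + s 2 * cx = x ∧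
      s 0 * ay + s 1 * b_y + s 2 * cy = y := by
  have hD : (0 : ℝ) < σ * ((bx - ax) * (cy - ay) - (b_y - ay) * (cx - ax)) := by
    simp only [det2] at hσ
    exact_mod_cast hσ
  set D : ℝ := σ * ((bx - ax) * (cy - ay) - (b_y - ay) * (cx - ax)) with hDdef
  refine ⟨![(σ : ℝ) * ((bx - x) * (cy - y) - (b_y - y) * (cx - x)) / D,
    (σ : ℝ) * ((cx - x) * (ay - y) - (cy - y) * (ax - x)) / D,
    (σ : ℝ) * ((ax - x) * (b_y - y) - (ay - y) * (bx - x)) / D], ⟨?_, ?_⟩, ?_, ?_⟩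
  · intro i
    fin_cases i
    · exact div_nonneg h0 hD.le
    · exact div_nonneg h1 hD.le
    · exact div_nonneg h2 hD.le
  · rw [Fin.sum_univ_three]
    simp only [Matrix.cons_val_zero, Matrix.cons_val_one, Matrix.cons_val]
    field_simp
    rw [hDdef]; ring
  · simp only [Matrix.cons_val_zero, Matrix.cons_val_one, Matrix.cons_val]
    field_simp
    rw [hDdef]; ring
  · simp only [Matrix.cons_val_zero, Matrix.cons_val_one, Matrix.cons_val]
    field_simp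
    rw [hDdef]; ring

end Pool.Agent.P.MP_c9efbf_co
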