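import Mathlib

/-! General lemmas on convex hulls in `Fin 3 → ℝ` with integer certificates. -/

namespace Pool.Agent.P.MP_c9efbf_co

open Set

abbrev E3 := Fin 3 → ℝ
abbrev Z3 := ℤ × ℤ × ℤ

def pt (q : Z3) : E3 := ![(q.1 : ℝ), (q.2.1 : ℝ), (q.2.2 : ℝ)]

def dot (l q : Z3) : ℤ := l.1 * q.1 + l.2.1 * q.2.1 + l.2.2 * q.2.2

def lin (l : Z3) : E3 →ₗ[ℝ] ℝ where
  toFun x := l.1 * x 0 + l.2.1 * x 1 + l.2.2 * x 2
  map_add' x y := by simp; ring
  map_smul' c x := by simp; ring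

theorem lin_apply (l : Z3) (x : E3) : lin l x = l.1 * x 0 + l.2.1 * x 1 + l.2.2 * x 2 := rfl

@[simp] theorem pt_zero (q : Z3) : pt q 0 = q.1 := rfl
@[simp] theorem pt_one (q : Z3) : pt q 1 = q.2.1 := rfl
@[simp] theorem pt_two (q : Z3) : pt q 2 = q.2.2 := rfl

theorem lin_pt (l q : Z3) : lin l (pt q) = (dot l q : ℤ) := by
  simp [lin_apply, dot]

theorem pt_injective : Function.Injective pt := by
  rintro ⟨a, b, c⟩ ⟨a', b', c'⟩ h
  have h0 := congrFun h 0
  have h1 := congrFun h 1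
  have h2 := congrFun h 2
  simp only [pt_zero, pt_one, pt_two, Int.cast_inj] at h0 h1 h2
  simp [h0, h1, h2]

theorem hull_le {S : Set E3} (L : E3 →ₗ[ℝ] ℝ) (c : ℝ) (h : ∀ y ∈ S, L y ≤ c) :
    ∀ x ∈ convexHull ℝ S, L x ≤ c :=
  fun _ hx => convexHull_min (t := {x | L x ≤ c}) h (convex_halfSpace_le L.isLinear c) hx

theorem hull_ge {S : Set E3} (L : E3 →ₗ[ℝ] ℝ) (c : ℝ) (h : ∀ y ∈ S, c ≤ L y) :
    ∀ x ∈ convexHull ℝ S, c ≤ L x :=
  fun _ hx => convexHull_min (t := {x | c ≤ L x}) h (convex_halfSpace_ge L.isLinear c) hx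

theorem hull_face {S U : Set E3} (L : E3 →ₗ[ℝ] ℝ) (c : ℝ)
    (h : ∀ y ∈ S, L y ≤ c ∧ (L y = c → y ∈ U)) {x : E3} (hx : x ∈ convexHull ℝ S)
    (hL : L x = c) : x ∈ convexHull ℝ U := by
  classical
  obtain ⟨ι, _, w, z, hw0, hw1, hz, rfl⟩ := mem_convexHull_iff_exists_fintype.1 hx
  have h1 : ∑ i, w i * (c - L (z i)) = 0 := by
    simp only [mul_sub, Finset.sum_sub_distrib, ← Finset.sum_mul, hw1, one_mul]
    rw [← hL, map_sum]
    simp
  have h2 := (Finset.sum_eq_zero_iff_of_nonneg (fun i _ =>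
    mul_nonneg (hw0 i) (sub_nonneg.2 (h _ (hz i)).1))).1 h1
  rw [← Finset.sum_filter_of_ne (p := fun i => w i ≠ 0)
    (fun i _ hi hw => hi (by rw [hw, zero_smul]))]
  refine (convex_convexHull ℝ U).sum_mem (fun i _ => hw0 i) ?_ ?_
  · rw [Finset.sum_filter_of_ne (fun i _ hi => hi), hw1]
  · intro i hi
    have hi' := (Finset.mem_filter.1 hi).2
    refine subset_convexHull ℝ U ((h _ (hz i)).2 ?_)
    have := (mul_eq_zero.1 (h2 i (Finset.mem_univ i))).resolve_left hi'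
    linarith

theorem face_extreme {S U : Set E3} (L : E3 →ₗ[ℝ] ℝ) (c : ℝ)
    (h : ∀ y ∈ S, L y ≤ c ∧ (L y = c → y ∈ U)) (hU : ∀ y ∈ U, y ∈ S ∧ L y = c) :
    IsExtreme ℝ (convexHull ℝ S) (convexHull ℝ U) := by
  refine ⟨convexHull_mono fun y hy => (hU y hy).1, ?_⟩
  rintro x hx y hy z hz ⟨a, b, ha, hb, hab, rfl⟩
  refine hull_face L c h hx ?_
  have h1 := hull_le L c (fun y hy => (h y hy).1) x hx
  have h2 := hull_le L c (fun y hy => (h y hy).1) y hy
  have h3 := hull_ge L c (fun y hy => (hU y hy).2.ge) _ hz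
  simp only [map_add, map_smul, smul_eq_mul] at h3
  have h4 : a * c + b * c = c := by rw [← add_mul, hab, one_mul]
  by_contra hne
  have h5 : L x < c := lt_of_le_of_ne h1 hne
  nlinarith

theorem sep_hull {S T U : Set E3} (L : E3 →ₗ[ℝ] ℝ) (c : ℝ)
    (hS : ∀ y ∈ S, L y ≤ c ∧ (L y = c → y ∈ U)) (hT : ∀ y ∈ T, c ≤ L y ∧ (L y = c → y ∈ U))
    (hU : ∀ y ∈ U, y ∈ S ∧ y ∈ T) :
    convexHull ℝ S ∩ convexHull ℝ T = convexHull ℝ U ∧
      IsExtreme ℝ (convexHull ℝ S) (convexHull ℝ U) ∧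
      IsExtreme ℝ (convexHull ℝ T) (convexHull ℝ U) := by
  have hc : ∀ y ∈ U, L y = c := fun y hy =>
    le_antisymm (hS y (hU y hy).1).1 (hT y (hU y hy).2).1
  refine ⟨Subset.antisymm ?_ (subset_inter (convexHull_mono fun y hy => (hU y hy).1)
    (convexHull_mono fun y hy => (hU y hy).2)), ?_, ?_⟩
  · rintro x ⟨hx, hx'⟩
    exact hull_face L c hS hx (le_antisymm (hull_le L c (fun y hy => (hS y hy).1) x hx)
      (hull_ge L c (fun y hy => (hT y hy).1) x hx'))
  · exact face_extreme L c hS fun y hy => ⟨(hU y hy).1, hc y hy⟩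
  · refine face_extreme (-L) (-c) (fun y hy => ⟨?_, fun h => (hT y hy).2 ?_⟩)
      fun y hy => ⟨(hU y hy).2, ?_⟩
    · simpa using (hT y hy).1
    · simpa using h
    · simpa using hc y hy

theorem left_mem_extremePoints_segment (a b : E3) : a ∈ (segment ℝ a b).extremePoints ℝ := by
  refine ⟨left_mem_segment ℝ a b, ?_⟩
  rintro x ⟨s, s', hs, hs', hss, rfl⟩ y ⟨t, t', ht, ht', htt, rfl⟩ ⟨u, v, hu, hv, huv, h⟩
  obtain rfl : s = 1 - s' := by linarith
  obtain rfl : t = 1 - t' := by linarith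
  obtain rfl : u = 1 - v := by linarith
  by_cases hab : a = b
  · subst hab
    ext k
    simp
    ring
  · have : ∃ k, a k ≠ b k := by
      by_contra hcon
      push Not at hcon
      exact hab (funext hcon)
    obtain ⟨k, hk⟩ := this
    have h1 := congrFun h k
    simp only [Pi.add_apply, Pi.smul_apply, smul_eq_mul] at h1
    have h2 : ((1 - v) * s' + v * t') * (b k - a k) = 0 := by linarith
    have h3 : (1 - v) * s' + v * t' = 0 :=
      (mul_eq_zero.1 h2).resolve_right (sub_ne_zero.2 hk.symm)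
    have h4 : s' = 0 := by
      by_contra h5
      have : 0 < s' := lt_of_le_of_ne hs' (Ne.symm h5)
      nlinarith [mul_pos hu this, mul_nonneg hv.le ht']
    simp [h4]

theorem coplanar_of_lin {A : Set E3} (l : Z3) (hl : l.2.2 ≠ 0) (c : ℝ) (h : ∀ x ∈ A, lin l x = c) :
    Coplanar ℝ A := by
  have h1 : vectorSpan ℝ A ≤ LinearMap.ker (lin l) := by
    rw [vectorSpan_def, Submodule.span_le]
    rintro _ ⟨x, hx, y, hy, rfl⟩
    simp [h x hx, h y hy]
  have h2 := LinearMap.finrank_range_add_finrank_ker (lin l)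
  have h3 : 0 < Module.finrank ℝ (LinearMap.range (lin l)) := by
    rw [Module.finrank_pos_iff, Submodule.nontrivial_iff_ne_bot]
    intro h0
    have : lin l (pt (0, 0, 1)) ∈ LinearMap.range (lin l) := ⟨_, rfl⟩
    rw [h0, Submodule.mem_bot, lin_pt] at this
    simp [dot, hl] at this
  have h4 : Module.finrank ℝ E3 = 3 := by simp
  rw [coplanar_iff_finrank_le_two]
  have h5 := Submodule.finrank_mono h1
  have h6 : Module.finrank ℝ (LinearMap.ker (lin l)) ≤ 2 := by omega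
  exact h5.trans h6

def det3 (a b c d : Z3) : ℤ :=
  (b.1 - a.1) * ((c.2.1 - a.2.1) * (d.2.2 - a.2.2) - (c.2.2 - a.2.2) * (d.2.1 - a.2.1)) -
  (b.2.1 - a.2.1) * ((c.1 - a.1) * (d.2.2 - a.2.2) - (c.2.2 - a.2.2) * (d.1 - a.1)) +
  (b.2.2 - a.2.2) * ((c.1 - a.1) * (d.2.1 - a.2.1) - (c.2.1 - a.2.1) * (d.1 - a.1))

theorem not_coplanar {A : Set E3} {a b c d : Z3} (ha : pt a ∈ A) (hb : pt b ∈ A) (hc : pt c ∈ A)
    (hd : pt d ∈ A) (h : det3 a b c d ≠ 0) : ¬ Coplanar ℝ A := by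
  intro hA
  rw [coplanar_iff_finrank_le_two] at hA
  let M : Matrix (Fin 3) (Fin 3) ℝ := Matrix.of ![pt b - pt a, pt c - pt a, pt d - pt a]
  have hM : M.det ≠ 0 := by
    have : M.det = (det3 a b c d : ℤ) := by
      simp [M, Matrix.det_fin_three, det3]
      ring
    rw [this]
    exact_mod_cast h
  have hli := Matrix.linearIndependent_rows_of_det_ne_zero hM
  have hle : Submodule.span ℝ (Set.range fun i => M i) ≤ vectorSpan ℝ A := by
    rw [Submodule.span_le]
    rintro _ ⟨i, rfl⟩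
    fin_cases i
    · exact vsub_mem_vectorSpan ℝ hb ha
    · exact vsub_mem_vectorSpan ℝ hc ha
    · exact vsub_mem_vectorSpan ℝ hd ha
  have h1 := Submodule.finrank_mono hle
  have h2 := finrank_span_eq_card hli
  simp only [Fintype.card_fin] at h2
  change Module.finrank ℝ (Submodule.span ℝ (Set.range fun i => M i)) = 3 at h2
  omega

def det2 (a b c : ℤ × ℤ) : ℤ := (b.1 - a.1) * (c.2 - a.2) - (b.2 - a.2) * (c.1 - a.1)

def pr (q : Z3) : ℤ × ℤ := (q.1, q.2.1)

theorem not_collinear {A : Set E3} {a b c : Z3} (ha : pt a ∈ A) (hb : pt b ∈ A) (hc : pt c ∈ A)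
    (h : det2 (pr a) (pr b) (pr c) ≠ 0) : ¬ Collinear ℝ A := by
  intro hA
  obtain ⟨v, hv⟩ := (collinear_iff_of_mem ha).1 hA
  obtain ⟨r, hr⟩ := hv _ hb
  obtain ⟨s, hs⟩ := hv _ hc
  have h1 := congrFun hr 0
  have h2 := congrFun hr 1
  have h3 := congrFun hs 0
  have h4 := congrFun hs 1
  simp only [pt_zero, pt_one, vadd_eq_add, Pi.add_apply, Pi.smul_apply, smul_eq_mul] at h1 h2 h3 h4
  apply h
  have : ((det2 (pr a) (pr b) (pr c) : ℤ) : ℝ) = 0 := by
    simp only [det2, pr]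
    push_cast
    rw [h1, h2, h3, h4]
    ring
  exact_mod_cast this

/-- A diagonal crossed by another segment of the set is not an extreme subset. -/
theorem not_extreme_of_cross {A : Set E3} {a b c d : Z3} (hc : pt c ∈ A) (hd : pt d ∈ A)
    (α β γ δ : ℤ) (hα : 0 ≤ α) (hβ : 0 ≤ β) (hγ : 0 < γ) (hδ : 0 < δ) (hs : α + β = γ + δ)
    (h0 : α * a.1 + β * b.1 = γ * c.1 + δ * d.1)
    (h1 : α * a.2.1 + β * b.2.1 = γ * c.2.1 + δ * d.2.1)
    (h2 : α * a.2.2 + β * b.2.2 = γ * c.2.2 + δ * d.2.2)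
    (hdet : det2 (pr a) (pr b) (pr c) ≠ 0) : ¬ IsExtreme ℝ A (segment ℝ (pt a) (pt b)) := by
  intro hE
  have hα' : (0 : ℝ) ≤ α := by exact_mod_cast hα
  have hβ' : (0 : ℝ) ≤ β := by exact_mod_cast hβ
  have hγ' : (0 : ℝ) < γ := by exact_mod_cast hγ
  have hδ' : (0 : ℝ) < δ := by exact_mod_cast hδ
  have hs' : (α : ℝ) + β = γ + δ := by exact_mod_cast hs
  have h0' : (α : ℝ) * a.1 + β * b.1 = γ * c.1 + δ * d.1 := by exact_mod_cast h0
  have h1' : (α : ℝ) * a.2.1 + β * b.2.1 = γ * c.2.1 + δ * d.2.1 := by exact_mod_cast h1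
  have h2' : (α : ℝ) * a.2.2 + β * b.2.2 = γ * c.2.2 + δ * d.2.2 := by exact_mod_cast h2
  have hpos : (0 : ℝ) < γ + δ := by linarith
  have hz : ((α : ℝ) / (γ + δ)) • pt a + ((β : ℝ) / (γ + δ)) • pt b ∈ segment ℝ (pt a) (pt b) :=
    ⟨_, _, div_nonneg hα' hpos.le, div_nonneg hβ' hpos.le, by field_simp; linarith, rfl⟩
  have hc' : pt c ∈ segment ℝ (pt a) (pt b) := by
    refine hE.2 hc hd hz ⟨γ / (γ + δ), δ / (γ + δ), div_pos hγ' hpos, div_pos hδ' hpos,
      by field_simp, ?_⟩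
    ext k
    fin_cases k <;> simp <;> field_simp <;> linarith
  refine not_collinear (left_mem_segment ℝ (pt a) (pt b)) (right_mem_segment ℝ (pt a) (pt b)) hc'
    hdet ?_
  rw [collinear_iff_of_mem (left_mem_segment ℝ (pt a) (pt b))]
  refine ⟨pt b - pt a, ?_⟩
  rintro _ ⟨s, t, -, -, hst, rfl⟩
  refine ⟨t, ?_⟩
  obtain rfl : s = 1 - t := by linarith
  ext k
  simp
  ring

/-- Two compact Hausdorff images of one compact space with the same fibres are homeomorphic. -/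
theorem homeo_of_same_fibres {K X Y : Type*} [TopologicalSpace K] [CompactSpace K]
    [TopologicalSpace X] [T2Space X] [TopologicalSpace Y] [T2Space Y] (f : K → X) (g : K → Y)
    (hf : Continuous f) (hg : Continuous g) (hgs : Function.Surjective g)
    (h : ∀ x y, f x = f y ↔ g x = g y) : Nonempty (Set.range f ≃ₜ Y) := by
  let f' : K → Set.range f := Set.rangeFactorization f
  have hf' : Continuous f' := hf.rangeFactorization
  have hs : Function.Surjective f' := Set.rangeFactorization_surjective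
  have hq : Topology.IsQuotientMap f' := hf'.isClosedMap.isQuotientMap hf' hs
  have : CompactSpace (Set.range f) := isCompact_iff_compactSpace.1 (isCompact_range hf)
  let e : Set.range f → Y := fun y => g (Function.surjInv hs y)
  have he : ∀ x, e (f' x) = g x := fun x => by
    apply (h _ _).1
    exact congrArg Subtype.val (Function.surjInv_eq hs (f' x))
  have hbij : Function.Bijective e := by
    constructor
    · intro y y' hy
      obtain ⟨x, rfl⟩ := hs y
      obtain ⟨x', rfl⟩ := hs y'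
      rw [he, he] at hy
      exact Subtype.ext ((h _ _).2 hy)
    · intro z
      obtain ⟨x, rfl⟩ := hgs z
      exact ⟨f' x, he x⟩
  have hc : Continuous (Equiv.ofBijective e hbij) := by
    rw [hq.continuous_iff]
    have : (Equiv.ofBijective e hbij) ∘ f' = g := funext he
    rw [this]
    exact hg
  exact ⟨hc.homeoOfEquivCompactToT2⟩

end Pool.Agent.P.MP_c9efbf_co
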