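import Pool.Agent.P.MP_c9efbf_co.Data

/-! The triangles cover the flat torus and every face. -/

namespace Pool.Agent.P.MP_c9efbf_co

theorem tri_good (i : Fin 40) : (tri i).good pos := by
  simpa using List.all_eq_true.1 all_good _ (tri_mem i)

theorem tri_face (i : Fin 40) :
    (tri i).pa ∈ fp (tri i).f ∧ (tri i).pb ∈ fp (tri i).f ∧ (tri i).pc ∈ fp (tri i).f := by
  simpa using List.all_eq_true.1 all_face _ (tri_mem i)

/-- The vertex set of face `i`. -/
def vs (i : Fin 13) : Set E3 := pt '' {q | q ∈ fp i}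

/-- Face `i`. -/
def face (i : Fin 13) : Set E3 := convexHull ℝ (vs i)

theorem pt_mem_face {i : Fin 13} {q : Z3} (h : q ∈ fp i) : pt q ∈ face i :=
  subset_convexHull ℝ _ ⟨q, h, rfl⟩

theorem face_le (i : Fin 13) (α β c : ℤ) (h : ∀ q ∈ fp i, dot (α, β, 0) q ≤ c) {x : E3}
    (hx : x ∈ face i) : (α : ℝ) * x 0 + β * x 1 ≤ c := by
  have := hull_le (lin (α, β, 0)) c (by
    rintro _ ⟨q, hq, rfl⟩
    rw [lin_pt]
    exact_mod_cast h q hq) x hx
  simpa [lin_apply] using this

theorem face_plane (i : Fin 13) {x : E3} (hx : x ∈ face i) : lin (plane i).1 x = (plane i).2 := by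
  apply le_antisymm
  · refine hull_le (lin (plane i).1) _ ?_ x hx
    rintro _ ⟨q, hq, rfl⟩
    rw [lin_pt, (plane_ok i).2 q hq]
  · refine hull_ge (lin (plane i).1) _ ?_ x hx
    rintro _ ⟨q, hq, rfl⟩
    rw [lin_pt, (plane_ok i).2 q hq]

theorem fpt_mem_face (i : Fin 40) {s : Fin 3 → ℝ} (hs : s ∈ stdSimplex ℝ (Fin 3)) :
    fpt (tri i) s ∈ face (tri i).f := by
  obtain ⟨ha, hb, hc⟩ := tri_face i
  have := (convex_convexHull ℝ (vs (tri i).f)).sum_mem (t := Finset.univ) (w := s)
    (z := ![pt (tri i).pa, pt (tri i).pb, pt (tri i).pc]) (fun k _ => hs.1 k) hs.2 (by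
      intro k _
      fin_cases k
      · exact pt_mem_face ha
      · exact pt_mem_face hb
      · exact pt_mem_face hc)
  rw [Fin.sum_univ_three] at this
  exact this

theorem leaf2 (i : Fin 40) (ax ay bx b_y cx cy σ : ℤ)
    (h : (tri i).qa = (ax, ay) ∧ (tri i).qb = (bx, b_y) ∧ (tri i).qc = (cx, cy) ∧
      0 < σ * det2 (ax, ay) (bx, b_y) (cx, cy)) (x y : ℝ)
    (h0 : 0 ≤ (σ : ℝ) * ((bx - x) * (cy - y) - (b_y - y) * (cx - x)))
    (h1 : 0 ≤ (σ : ℝ) * ((cx - x) * (ay - y) - (cy - y) * (ax - x)))
    (h2 : 0 ≤ (σ : ℝ) * ((ax - x) * (b_y - y) - (ay - y) * (bx - x))) :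
    ∃ i, ∃ s ∈ stdSimplex ℝ (Fin 3), gx (tri i) s = x ∧ gy (tri i) s = y := by
  obtain ⟨s, hs, e1, e2⟩ := tri2 ax ay bx b_y cx cy σ h.2.2.2 x y h0 h1 h2
  refine ⟨i, s, hs, ?_, ?_⟩
  · simpa [gx, h.1, h.2.1, h.2.2.1] using e1
  · simpa [gy, h.1, h.2.1, h.2.2.1] using e2

theorem leaf3 (i : Fin 40) (f : Fin 13) (ax ay bx b_y cx cy σ : ℤ)
    (h : pr (tri i).pa = (ax, ay) ∧ pr (tri i).pb = (bx, b_y) ∧ pr (tri i).pc = (cx, cy) ∧
      (tri i).f = f ∧ 0 < σ * det2 (ax, ay) (bx, b_y) (cx, cy)) {x : E3} (hx : x ∈ face f)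
    (h0 : 0 ≤ (σ : ℝ) * ((bx - x 0) * (cy - x 1) - (b_y - x 1) * (cx - x 0)))
    (h1 : 0 ≤ (σ : ℝ) * ((cx - x 0) * (ay - x 1) - (cy - x 1) * (ax - x 0)))
    (h2 : 0 ≤ (σ : ℝ) * ((ax - x 0) * (b_y - x 1) - (ay - x 1) * (bx - x 0))) :
    ∃ i, ∃ s ∈ stdSimplex ℝ (Fin 3), fpt (tri i) s = x := by
  obtain ⟨s, hs, e1, e2⟩ := tri2 ax ay bx b_y cx cy σ h.2.2.2.2 (x 0) (x 1) h0 h1 h2
  obtain ⟨ha, hb, hc, hf, -⟩ := h
  simp only [pr, Prod.mk.injEq] at ha hb hc
  have k0 : fpt (tri i) s 0 = x 0 := by simpa [fpt, ha.1, hb.1, hc.1] using e1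
  have k1 : fpt (tri i) s 1 = x 1 := by simpa [fpt, ha.2, hb.2, hc.2] using e2
  have p1 := face_plane f hx
  have p2 := face_plane f (hf ▸ fpt_mem_face i hs)
  have hN : ((plane f).1.2.2 : ℝ) ≠ 0 := by exact_mod_cast (plane_ok f).1
  rw [lin_apply] at p1 p2
  rw [k0, k1] at p2
  have k2 : fpt (tri i) s 2 = x 2 := mul_left_cancel₀ hN (by linarith)
  refine ⟨i, s, hs, ?_⟩
  funext k
  fin_cases k
  · exact k0
  · exact k1
  · exact k2

theorem strip0 (x y : ℝ) (hx0 : 0 ≤ x) (hx1 : x ≤ 7) (hy0 : 0 ≤ y) (hy1 : y ≤ 1) :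
    ∃ i, ∃ s ∈ stdSimplex ℝ (Fin 3), gx (tri i) s = x ∧ gy (tri i) s = y := by
  rcases le_total x (2 + (-2) * (y - 0)) with h0 | h0
  · exact leaf2 33 0 0 2 0 0 1 1 (by decide) x y
      (by push_cast; linarith) (by push_cast; linarith) (by push_cast; linarith)
  rcases le_total x (2 + (-1) * (y - 0)) with h1 | h1
  · exact leaf2 32 2 0 1 1 0 1 1 (by decide) x y
      (by push_cast; linarith) (by push_cast; linarith) (by push_cast; linarith)
  rcases le_total x (2 + 0 * (y - 0)) with h2 | h2
  · exact leaf2 35 2 0 2 1 1 1 1 (by decide) x y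
      (by push_cast; linarith) (by push_cast; linarith) (by push_cast; linarith)
  rcases le_total x (2 + 1 * (y - 0)) with h3 | h3
  · exact leaf2 34 2 0 3 1 2 1 1 (by decide) x y
      (by push_cast; linarith) (by push_cast; linarith) (by push_cast; linarith)
  rcases le_total x (3 + 0 * (y - 0)) with h4 | h4
  · exact leaf2 31 2 0 3 0 3 1 1 (by decide) x y
      (by push_cast; linarith) (by push_cast; linarith) (by push_cast; linarith)
  rcases le_total x (3 + 3 * (y - 0)) with h5 | h5
  · exact leaf2 17 3 1 3 0 6 1 1 (by decide) x y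
      (by push_cast; linarith) (by push_cast; linarith) (by push_cast; linarith)
  rcases le_total x (6 + 0 * (y - 0)) with h6 | h6
  · exact leaf2 26 6 1 3 0 6 0 1 (by decide) x y
      (by push_cast; linarith) (by push_cast; linarith) (by push_cast; linarith)
  rcases le_total x (7 + (-1) * (y - 0)) with h7 | h7
  · exact leaf2 27 7 0 6 1 6 0 1 (by decide) x y
      (by push_cast; linarith) (by push_cast; linarith) (by push_cast; linarith)
  exact leaf2 14 6 1 7 0 7 1 1 (by decide) x y
      (by push_cast; linarith) (by push_cast; linarith) (by push_cast; linarith)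

theorem strip1 (x y : ℝ) (hx0 : 0 ≤ x) (hx1 : x ≤ 7) (hy0 : 1 ≤ y) (hy1 : y ≤ 2) :
    ∃ i, ∃ s ∈ stdSimplex ℝ (Fin 3), gx (tri i) s = x ∧ gy (tri i) s = y := by
  rcases le_total x (0 + 1 * (y - 1)) with h0 | h0
  · exact leaf2 13 0 2 0 1 1 2 1 (by decide) x y
      (by push_cast; linarith) (by push_cast; linarith) (by push_cast; linarith)
  rcases le_total x (1 + 0 * (y - 1)) with h1 | h1
  · exact leaf2 12 0 1 1 1 1 2 1 (by decide) x y
      (by push_cast; linarith) (by push_cast; linarith) (by push_cast; linarith)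
  rcases le_total x (2 + (-1) * (y - 1)) with h2 | h2
  · exact leaf2 11 1 1 2 1 1 2 1 (by decide) x y
      (by push_cast; linarith) (by push_cast; linarith) (by push_cast; linarith)
  rcases le_total x (2 + 1 * (y - 1)) with h3 | h3
  · exact leaf2 21 1 2 2 1 3 2 1 (by decide) x y
      (by push_cast; linarith) (by push_cast; linarith) (by push_cast; linarith)
  rcases le_total x (3 + 0 * (y - 1)) with h4 | h4
  · exact leaf2 20 2 1 3 1 3 2 1 (by decide) x y
      (by push_cast; linarith) (by push_cast; linarith) (by push_cast; linarith)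
  rcases le_total x (6 + (-3) * (y - 1)) with h5 | h5
  · exact leaf2 19 3 1 6 1 3 2 1 (by decide) x y
      (by push_cast; linarith) (by push_cast; linarith) (by push_cast; linarith)
  rcases le_total x (6 + 0 * (y - 1)) with h6 | h6
  · exact leaf2 18 6 1 6 2 3 2 1 (by decide) x y
      (by push_cast; linarith) (by push_cast; linarith) (by push_cast; linarith)
  rcases le_total x (7 + (-1) * (y - 1)) with h7 | h7
  · exact leaf2 15 6 2 6 1 7 1 1 (by decide) x y
      (by push_cast; linarith) (by push_cast; linarith) (by push_cast; linarith)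
  exact leaf2 16 7 2 6 2 7 1 1 (by decide) x y
      (by push_cast; linarith) (by push_cast; linarith) (by push_cast; linarith)

theorem strip2 (x y : ℝ) (hx0 : 0 ≤ x) (hx1 : x ≤ 7) (hy0 : 2 ≤ y) (hy1 : y ≤ 3) :
    ∃ i, ∃ s ∈ stdSimplex ℝ (Fin 3), gx (tri i) s = x ∧ gy (tri i) s = y := by
  rcases le_total x (1 + (-1) * (y - 2)) with h0 | h0
  · exact leaf2 2 0 2 1 2 0 3 1 (by decide) x y
      (by push_cast; linarith) (by push_cast; linarith) (by push_cast; linarith)
  rcases le_total x (1 + 0 * (y - 2)) with h1 | h1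
  · exact leaf2 1 1 2 1 3 0 3 1 (by decide) x y
      (by push_cast; linarith) (by push_cast; linarith) (by push_cast; linarith)
  rcases le_total x (1 + 1 * (y - 2)) with h2 | h2
  · exact leaf2 0 1 2 2 3 1 3 1 (by decide) x y
      (by push_cast; linarith) (by push_cast; linarith) (by push_cast; linarith)
  rcases le_total x (3 + (-1) * (y - 2)) with h3 | h3
  · exact leaf2 10 1 2 3 2 2 3 1 (by decide) x y
      (by push_cast; linarith) (by push_cast; linarith) (by push_cast; linarith)
  rcases le_total x (3 + 0 * (y - 2)) with h4 | h4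
  · exact leaf2 9 3 2 3 3 2 3 1 (by decide) x y
      (by push_cast; linarith) (by push_cast; linarith) (by push_cast; linarith)
  rcases le_total x (3 + 1 * (y - 2)) with h5 | h5
  · exact leaf2 8 3 2 4 3 3 3 1 (by decide) x y
      (by push_cast; linarith) (by push_cast; linarith) (by push_cast; linarith)
  rcases le_total x (6 + (-2) * (y - 2)) with h6 | h6
  · exact leaf2 3 4 3 3 2 6 2 1 (by decide) x y
      (by push_cast; linarith) (by push_cast; linarith) (by push_cast; linarith)
  rcases le_total x (6 + (-1) * (y - 2)) with h7 | h7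
  · exact leaf2 4 5 3 4 3 6 2 1 (by decide) x y
      (by push_cast; linarith) (by push_cast; linarith) (by push_cast; linarith)
  rcases le_total x (6 + 0 * (y - 2)) with h8 | h8
  · exact leaf2 5 6 3 5 3 6 2 1 (by decide) x y
      (by push_cast; linarith) (by push_cast; linarith) (by push_cast; linarith)
  rcases le_total x (6 + 1 * (y - 2)) with h9 | h9
  · exact leaf2 6 7 3 6 3 6 2 1 (by decide) x y
      (by push_cast; linarith) (by push_cast; linarith) (by push_cast; linarith)
  exact leaf2 7 7 2 7 3 6 2 1 (by decide) x y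
      (by push_cast; linarith) (by push_cast; linarith) (by push_cast; linarith)

theorem strip3 (x y : ℝ) (hx0 : 3 ≤ x) (hx1 : x ≤ 10) (hy0 : 3 ≤ y) (hy1 : y ≤ 4) :
    ∃ i, ∃ s ∈ stdSimplex ℝ (Fin 3), gx (tri i) s = x ∧ gy (tri i) s = y := by
  rcases le_total x (4 + (-1) * (y - 3)) with h0 | h0
  · exact leaf2 29 3 3 4 3 3 4 1 (by decide) x y
      (by push_cast; linarith) (by push_cast; linarith) (by push_cast; linarith)
  rcases le_total x (5 + (-2) * (y - 3)) with h1 | h1
  · exact leaf2 28 4 3 5 3 3 4 1 (by decide) x y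
      (by push_cast; linarith) (by push_cast; linarith) (by push_cast; linarith)
  rcases le_total x (5 + 1 * (y - 3)) with h2 | h2
  · exact leaf2 25 3 4 5 3 6 4 1 (by decide) x y
      (by push_cast; linarith) (by push_cast; linarith) (by push_cast; linarith)
  rcases le_total x (6 + 0 * (y - 3)) with h3 | h3
  · exact leaf2 24 5 3 6 3 6 4 1 (by decide) x y
      (by push_cast; linarith) (by push_cast; linarith) (by push_cast; linarith)
  rcases le_total x (7 + (-1) * (y - 3)) with h4 | h4
  · exact leaf2 38 6 4 6 3 7 3 1 (by decide) x y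
      (by push_cast; linarith) (by push_cast; linarith) (by push_cast; linarith)
  rcases le_total x (8 + (-2) * (y - 3)) with h5 | h5
  · exact leaf2 39 6 4 7 3 8 3 1 (by decide) x y
      (by push_cast; linarith) (by push_cast; linarith) (by push_cast; linarith)
  rcases le_total x (9 + (-3) * (y - 3)) with h6 | h6
  · exact leaf2 36 6 4 8 3 9 3 1 (by decide) x y
      (by push_cast; linarith) (by push_cast; linarith) (by push_cast; linarith)
  rcases le_total x (10 + (-4) * (y - 3)) with h7 | h7
  · exact leaf2 37 6 4 9 3 10 3 1 (by decide) x y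
      (by push_cast; linarith) (by push_cast; linarith) (by push_cast; linarith)
  rcases le_total x (10 + (-3) * (y - 3)) with h8 | h8
  · exact leaf2 22 7 4 6 4 10 3 1 (by decide) x y
      (by push_cast; linarith) (by push_cast; linarith) (by push_cast; linarith)
  rcases le_total x (10 + (-1) * (y - 3)) with h9 | h9
  · exact leaf2 23 7 4 10 3 9 4 1 (by decide) x y
      (by push_cast; linarith) (by push_cast; linarith) (by push_cast; linarith)
  exact leaf2 30 9 4 10 3 10 4 1 (by decide) x y
      (by push_cast; linarith) (by push_cast; linarith) (by push_cast; linarith)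

theorem cover0 {x : E3} (hx : x ∈ face 0) :
    ∃ i, ∃ s ∈ stdSimplex ℝ (Fin 3), fpt (tri i) s = x := by
  have e0 := face_le 0 1 0 0 (by decide) hx
  have e1 := face_le 0 3 (-1) (-72) (by decide) hx
  have e2 := face_le 0 (-1) (-1) 36 (by decide) hx
  have e3 := face_le 0 (-3) 1 132 (by decide) hx
  have e4 := face_le 0 (-7) 3 360 (by decide) hx
  push_cast at e0 e1 e2 e3 e4
  rcases le_total ((-11) * x 0 + 7 * x 1) 504 with h0 | h0
  · exact leaf3 0 0 0 72 (-27) (-9) (-42) 6 (-1) (by decide) hx
      (by push_cast; linarith) (by push_cast; linarith) (by push_cast; linarith)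
  rcases le_total (1 * x 0 + 3 * x 1) 216 with h1 | h1
  · exact leaf3 1 0 0 72 (-42) 6 (-18) 78 (-1) (by decide) hx
      (by push_cast; linarith) (by push_cast; linarith) (by push_cast; linarith)
  exact leaf3 2 0 0 120 0 72 (-18) 78 (-1) (by decide) hx
      (by push_cast; linarith) (by push_cast; linarith) (by push_cast; linarith)

theorem cover1 {x : E3} (hx : x ∈ face 1) :
    ∃ i, ∃ s ∈ stdSimplex ℝ (Fin 3), fpt (tri i) s = x := by
  have e0 := face_le 1 7 (-3) (-360) (by decide) hx
  have e1 := face_le 1 1 (-1) (-96) (by decide) hx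
  have e2 := face_le 1 5 (-7) (-432) (by decide) hx
  have e3 := face_le 1 (-1) (-1) 204 (by decide) hx
  have e4 := face_le 1 (-7) 5 936 (by decide) hx
  have e5 := face_le 1 (-1) 3 504 (by decide) hx
  have e6 := face_le 1 3 (-1) (-120) (by decide) hx
  push_cast at e0 e1 e2 e3 e4 e5 e6
  rcases le_total (215 * x 0 + (-181) * x 1) (-27624) with h0 | h0
  · exact leaf3 3 1 (-163) (-41) (-18) 162 18 174 (-1) (by decide) hx
      (by push_cast; linarith) (by push_cast; linarith) (by push_cast; linarith)
  rcases le_total (223 * x 0 + (-173) * x 1) (-26088) with h1 | h1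
  · exact leaf3 4 1 (-155) (-49) (-163) (-41) 18 174 (-1) (by decide) hx
      (by push_cast; linarith) (by push_cast; linarith) (by push_cast; linarith)
  rcases le_total (33 * x 0 + (-23) * x 1) (-3408) with h2 | h2
  · exact leaf3 5 1 (-120) (-24) (-155) (-49) 18 174 (-1) (by decide) hx
      (by push_cast; linarith) (by push_cast; linarith) (by push_cast; linarith)
  rcases le_total (8 * x 0 + (-3) * x 1) (-378) with h3 | h3
  · exact leaf3 6 1 (-18) 78 (-120) (-24) 18 174 (-1) (by decide) hx
      (by push_cast; linarith) (by push_cast; linarith) (by push_cast; linarith)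
  exact leaf3 7 1 0 120 (-18) 78 18 174 (-1) (by decide) hx
      (by push_cast; linarith) (by push_cast; linarith) (by push_cast; linarith)

theorem cover2 {x : E3} (hx : x ∈ face 2) :
    ∃ i, ∃ s ∈ stdSimplex ℝ (Fin 3), fpt (tri i) s = x := by
  have e0 := face_le 2 5 1 72 (by decide) hx
  have e1 := face_le 2 (-7) 5 936 (by decide) hx
  have e2 := face_le 2 (-1) (-13) 696 (by decide) hx
  have e3 := face_le 2 13 (-15) (-216) (by decide) hx
  have e4 := face_le 2 3 (-1) (-72) (by decide) hx
  push_cast at e0 e1 e2 e3 e4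
  rcases le_total (35 * x 0 + (-9) * x 1) (-2088) with h0 | h0
  · exact leaf3 8 2 (-18) 162 (-163) (-41) (-72) (-48) 1 (by decide) hx
      (by push_cast; linarith) (by push_cast; linarith) (by push_cast; linarith)
  rcases le_total (19 * x 0 + (-1) * x 1) (-504) with h1 | h1
  · exact leaf3 9 2 (-18) 162 (-72) (-48) (-27) (-9) 1 (by decide) hx
      (by push_cast; linarith) (by push_cast; linarith) (by push_cast; linarith)
  exact leaf3 10 2 0 72 (-18) 162 (-27) (-9) 1 (by decide) hx
      (by push_cast; linarith) (by push_cast; linarith) (by push_cast; linarith)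

theorem cover3 {x : E3} (hx : x ∈ face 3) :
    ∃ i, ∃ s ∈ stdSimplex ℝ (Fin 3), fpt (tri i) s = x := by
  have e0 := face_le 3 3 1 120 (by decide) hx
  have e1 := face_le 3 7 1 228 (by decide) hx
  have e2 := face_le 3 (-3) (-1) (-60) (by decide) hx
  have e3 := face_le 3 (-11) (-3) (-216) (by decide) hx
  have e4 := face_le 3 (-1) 0 0 (by decide) hx
  push_cast at e0 e1 e2 e3 e4
  rcases le_total (23 * x 0 + 7 * x 1) 504 with h0 | h0
  · exact leaf3 11 3 42 (-66) 18 6 0 72 (-1) (by decide) hx
      (by push_cast; linarith) (by push_cast; linarith) (by push_cast; linarith)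
  rcases le_total (11 * x 0 + 9 * x 1) 648 with h1 | h1
  · exact leaf3 12 3 27 39 42 (-66) 0 72 (-1) (by decide) hx
      (by push_cast; linarith) (by push_cast; linarith) (by push_cast; linarith)
  exact leaf3 13 3 0 120 27 39 0 72 (-1) (by decide) hx
      (by push_cast; linarith) (by push_cast; linarith) (by push_cast; linarith)

theorem cover4 {x : E3} (hx : x ∈ face 4) :
    ∃ i, ∃ s ∈ stdSimplex ℝ (Fin 3), fpt (tri i) s = x := by
  have e0 := face_le 4 (-3) 1 120 (by decide) hx
  have e1 := face_le 4 9 5 1032 (by decide) hx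
  have e2 := face_le 4 (-9) (-13) (-336) (by decide) hx
  have e3 := face_le 4 (-7) (-5) (-384) (by decide) hx
  have e4 := face_le 4 (-3) (-1) (-120) (by decide) hx
  push_cast at e0 e1 e2 e3 e4
  rcases le_total (63 * x 0 + 68 * x 1) 4353 with h0 | h0
  · exact leaf3 14 4 163 (-87) 72 (-24) 27 39 (-1) (by decide) hx
      (by push_cast; linarith) (by push_cast; linarith) (by push_cast; linarith)
  rcases le_total ((-15) * x 0 + (-1) * x 1) (-444) with h1 | h1
  · exact leaf3 15 4 18 174 163 (-87) 27 39 (-1) (by decide) hx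
      (by push_cast; linarith) (by push_cast; linarith) (by push_cast; linarith)
  exact leaf3 16 4 0 120 18 174 27 39 (-1) (by decide) hx
      (by push_cast; linarith) (by push_cast; linarith) (by push_cast; linarith)

theorem cover5 {x : E3} (hx : x ∈ face 5) :
    ∃ i, ∃ s ∈ stdSimplex ℝ (Fin 3), fpt (tri i) s = x := by
  have e0 := face_le 5 (-11) (-3) (-216) (by decide) hx
  have e1 := face_le 5 (-1) (-1) (-24) (by decide) hx
  have e2 := face_le 5 (-3) (-7) 312 (by decide) hx
  have e3 := face_le 5 3 (-1) 576 (by decide) hx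
  have e4 := face_le 5 9 5 1032 (by decide) hx
  have e5 := face_le 5 (-1) 3 504 (by decide) hx
  have e6 := face_le 5 (-5) (-1) (-72) (by decide) hx
  push_cast at e0 e1 e2 e3 e4 e5 e6
  rcases le_total ((-9) * x 0 + 43 * x 1) (-5208) with h0 | h0
  · exact leaf3 17 5 120 (-96) 155 (-111) 163 (-87) 1 (by decide) hx
      (by push_cast; linarith) (by push_cast; linarith) (by push_cast; linarith)
  rcases le_total ((-249) * x 0 + (-181) * x 1) (-24840) with h1 | h1
  · exact leaf3 18 5 163 (-87) 18 174 (-18) 162 1 (by decide) hx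
      (by push_cast; linarith) (by push_cast; linarith) (by push_cast; linarith)
  rcases le_total ((-43) * x 0 + (-23) * x 1) (-2952) with h2 | h2
  · exact leaf3 19 5 120 (-96) 163 (-87) (-18) 162 1 (by decide) hx
      (by push_cast; linarith) (by push_cast; linarith) (by push_cast; linarith)
  rcases le_total ((-13) * x 0 + (-3) * x 1) (-252) with h3 | h3
  · exact leaf3 20 5 18 6 120 (-96) (-18) 162 1 (by decide) hx
      (by push_cast; linarith) (by push_cast; linarith) (by push_cast; linarith)
  exact leaf3 21 5 0 72 18 6 (-18) 162 1 (by decide) hx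
      (by push_cast; linarith) (by push_cast; linarith) (by push_cast; linarith)

theorem cover6 {x : E3} (hx : x ∈ face 6) :
    ∃ i, ∃ s ∈ stdSimplex ℝ (Fin 3), fpt (tri i) s = x := by
  have e0 := face_le 6 1 5 (-48) (by decide) hx
  have e1 := face_le 6 (-2) 1 96 (by decide) hx
  have e2 := face_le 6 (-1) (-5) 312 (by decide) hx
  have e3 := face_le 6 2 (-1) 168 (by decide) hx
  push_cast at e0 e1 e2 e3
  rcases le_total (1 * x 0 + (-6) * x 1) 216 with h0 | h0
  · exact leaf3 22 6 72 (-24) (-48) 0 (-72) (-48) 1 (by decide) hx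
      (by push_cast; linarith) (by push_cast; linarith) (by push_cast; linarith)
  exact leaf3 23 6 72 (-24) (-72) (-48) 48 (-72) 1 (by decide) hx
      (by push_cast; linarith) (by push_cast; linarith) (by push_cast; linarith)

theorem cover7 {x : E3} (hx : x ∈ face 7) :
    ∃ i, ∃ s ∈ stdSimplex ℝ (Fin 3), fpt (tri i) s = x := by
  have e0 := face_le 7 9 13 336 (by decide) hx
  have e1 := face_le 7 3 (-1) 576 (by decide) hx
  have e2 := face_le 7 (-1) (-5) 400 (by decide) hx
  have e3 := face_le 7 (-5) 7 432 (by decide) hx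
  have e4 := face_le 7 (-1) 3 48 (by decide) hx
  have e5 := face_le 7 1 5 (-48) (by decide) hx
  push_cast at e0 e1 e2 e3 e4 e5
  rcases le_total (49 * x 0 + (-107) * x 1) (-2352) with h0 | h0
  · exact leaf3 24 7 (-155) (-49) (-120) (-24) (-48) 0 (-1) (by decide) hx
      (by push_cast; linarith) (by push_cast; linarith) (by push_cast; linarith)
  rcases le_total (111 * x 0 + 203 * x 1) (-5328) with h1 | h1
  · exact leaf3 25 7 155 (-111) (-155) (-49) (-48) 0 (-1) (by decide) hx
      (by push_cast; linarith) (by push_cast; linarith) (by push_cast; linarith)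
  rcases le_total (87 * x 0 + 211 * x 1) (-4176) with h2 | h2
  · exact leaf3 26 7 163 (-87) 155 (-111) (-48) 0 (-1) (by decide) hx
      (by push_cast; linarith) (by push_cast; linarith) (by push_cast; linarith)
  exact leaf3 27 7 72 (-24) 163 (-87) (-48) 0 (-1) (by decide) hx
      (by push_cast; linarith) (by push_cast; linarith) (by push_cast; linarith)

theorem cover8 {x : E3} (hx : x ∈ face 8) :
    ∃ i, ∃ s ∈ stdSimplex ℝ (Fin 3), fpt (tri i) s = x := by
  have e0 := face_le 8 1 5 (-312) (by decide) hx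
  have e1 := face_le 8 1 13 (-696) (by decide) hx
  have e2 := face_le 8 (-1) (-1) 204 (by decide) hx
  have e3 := face_le 8 (-1) (-5) 400 (by decide) hx
  have e4 := face_le 8 3 7 (-312) (by decide) hx
  have e5 := face_le 8 1 3 (-168) (by decide) hx
  push_cast at e0 e1 e2 e3 e4 e5
  rcases le_total (35 * x 0 + 159 * x 1) (-12224) with h0 | h0
  · exact leaf3 28 8 (-163) (-41) (-155) (-49) 155 (-111) 1 (by decide) hx
      (by push_cast; linarith) (by push_cast; linarith) (by push_cast; linarith)
  rcases le_total (63 * x 0 + 227 * x 1) (-15432) with h1 | h1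
  · exact leaf3 29 8 (-72) (-48) (-163) (-41) 155 (-111) 1 (by decide) hx
      (by push_cast; linarith) (by push_cast; linarith) (by push_cast; linarith)
  rcases le_total (39 * x 0 + 107 * x 1) (-5832) with h2 | h2
  · exact leaf3 30 8 48 (-72) (-72) (-48) 155 (-111) 1 (by decide) hx
      (by push_cast; linarith) (by push_cast; linarith) (by push_cast; linarith)
  exact leaf3 31 8 48 (-72) 155 (-111) 120 (-96) 1 (by decide) hx
      (by push_cast; linarith) (by push_cast; linarith) (by push_cast; linarith)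

theorem cover9 {x : E3} (hx : x ∈ face 9) :
    ∃ i, ∃ s ∈ stdSimplex ℝ (Fin 3), fpt (tri i) s = x := by
  have e0 := face_le 9 2 (-1) 168 (by decide) hx
  have e1 := face_le 9 (-1) (-1) 24 (by decide) hx
  have e2 := face_le 9 (-7) (-1) (-228) (by decide) hx
  have e3 := face_le 9 7 5 384 (by decide) hx
  push_cast at e0 e1 e2 e3
  rcases le_total (37 * x 0 + 7 * x 1) 1272 with h0 | h0
  · exact leaf3 32 9 48 (-72) 42 (-66) 27 39 (-1) (by decide) hx
      (by push_cast; linarith) (by push_cast; linarith) (by push_cast; linarith)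
  exact leaf3 33 9 72 (-24) 48 (-72) 27 39 (-1) (by decide) hx
      (by push_cast; linarith) (by push_cast; linarith) (by push_cast; linarith)

theorem cover10 {x : E3} (hx : x ∈ face 10) :
    ∃ i, ∃ s ∈ stdSimplex ℝ (Fin 3), fpt (tri i) s = x := by
  have e0 := face_le 10 (-1) (-3) 168 (by decide) hx
  have e1 := face_le 10 1 1 24 (by decide) hx
  have e2 := face_le 10 (-3) (-1) (-60) (by decide) hx
  have e3 := face_le 10 (-1) (-1) 24 (by decide) hx
  push_cast at e0 e1 e2 e3
  rcases le_total ((-13) * x 0 + (-5) * x 1) (-264) with h0 | h0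
  · exact leaf3 34 10 48 (-72) 120 (-96) 18 6 1 (by decide) hx
      (by push_cast; linarith) (by push_cast; linarith) (by push_cast; linarith)
  exact leaf3 35 10 48 (-72) 18 6 42 (-66) 1 (by decide) hx
      (by push_cast; linarith) (by push_cast; linarith) (by push_cast; linarith)

theorem cover11 {x : E3} (hx : x ∈ face 11) :
    ∃ i, ∃ s ∈ stdSimplex ℝ (Fin 3), fpt (tri i) s = x := by
  have e0 := face_le 11 (-1) 1 48 (by decide) hx
  have e1 := face_le 11 1 1 (-36) (by decide) hx
  have e2 := face_le 11 13 (-15) (-216) (by decide) hx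
  have e3 := face_le 11 (-2) 1 96 (by decide) hx
  push_cast at e0 e1 e2 e3
  rcases le_total ((-3) * x 0 + (-7) * x 1) 144 with h0 | h0
  · exact leaf3 36 11 (-48) 0 (-42) 6 (-27) (-9) (-1) (by decide) hx
      (by push_cast; linarith) (by push_cast; linarith) (by push_cast; linarith)
  exact leaf3 37 11 (-48) 0 (-27) (-9) (-72) (-48) (-1) (by decide) hx
      (by push_cast; linarith) (by push_cast; linarith) (by push_cast; linarith)

theorem cover12 {x : E3} (hx : x ∈ face 12) :
    ∃ i, ∃ s ∈ stdSimplex ℝ (Fin 3), fpt (tri i) s = x := by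
  have e0 := face_le 12 1 (-3) (-48) (by decide) hx
  have e1 := face_le 12 (-1) 1 96 (by decide) hx
  have e2 := face_le 12 3 (-1) (-132) (by decide) hx
  have e3 := face_le 12 1 (-1) (-48) (by decide) hx
  push_cast at e0 e1 e2 e3
  rcases le_total (13 * x 0 + (-5) * x 1) (-624) with h0 | h0
  · exact leaf3 38 12 (-48) 0 (-120) (-24) (-18) 78 (-1) (by decide) hx
      (by push_cast; linarith) (by push_cast; linarith) (by push_cast; linarith)
  exact leaf3 39 12 (-48) 0 (-18) 78 (-42) 6 (-1) (by decide) hx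
      (by push_cast; linarith) (by push_cast; linarith) (by push_cast; linarith)

theorem cover_face (f : Fin 13) {x : E3} (hx : x ∈ face f) :
    ∃ i, ∃ s ∈ stdSimplex ℝ (Fin 3), fpt (tri i) s = x := by
  fin_cases f
  · exact cover0 hx
  · exact cover1 hx
  · exact cover2 hx
  · exact cover3 hx
  · exact cover4 hx
  · exact cover5 hx
  · exact cover6 hx
  · exact cover7 hx
  · exact cover8 hx
  · exact cover9 hx
  · exact cover10 hx
  · exact cover11 hx
  · exact cover12 hx

end Pool.Agent.P.MP_c9efbf_co
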