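import Pool.Agent.P.MP_c9efbf_co.Bary

/-! The data: 20 vertices, 13 faces, a triangulation with 40 triangles, its flat model on the
torus `ℝ / 7 × ℝ / 4`, and integer certificates. -/

namespace Pool.Agent.P.MP_c9efbf_co

def pList : List Z3 :=
  [(0, 120, 24),
   (0, 72, -24),
   (18, 174, 6),
   (-18, 162, -6),
   (72, -24, 12),
   (48, -72, -36),
   (163, -87, -23),
   (155, -111, -31),
   (27, 39, 24),
   (42, -66, -36),
   (18, 6, -36),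
   (120, -96, -36),
   (-48, 0, 36),
   (-72, -48, -12),
   (-155, -49, 31),
   (-163, -41, 23),
   (-27, -9, -24),
   (-42, 6, 36),
   (-18, 78, 36),
   (-120, -24, 36)]

def pos (v : Fin 20) : Z3 := pList.getD v (0, 0, 0)

def fpList : List (List Z3) :=
  [[(0, 120, 24), (0, 72, -24), (-27, -9, -24), (-42, 6, 36), (-18, 78, 36)],
   [(0, 120, 24), (-18, 78, 36), (-120, -24, 36), (-155, -49, 31), (-163, -41, 23), (-18, 162, -6), (18, 174, 6)],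
   [(0, 72, -24), (-18, 162, -6), (-163, -41, 23), (-72, -48, -12), (-27, -9, -24)],
   [(0, 120, 24), (27, 39, 24), (42, -66, -36), (18, 6, -36), (0, 72, -24)],
   [(0, 120, 24), (18, 174, 6), (163, -87, -23), (72, -24, 12), (27, 39, 24)],
   [(0, 72, -24), (18, 6, -36), (120, -96, -36), (155, -111, -31), (163, -87, -23), (18, 174, 6), (-18, 162, -6)],
   [(72, -24, 12), (-48, 0, 36), (-72, -48, -12), (48, -72, -36)],
   [(72, -24, 12), (163, -87, -23), (155, -111, -31), (-155, -49, 31), (-120, -24, 36), (-48, 0, 36)],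
   [(48, -72, -36), (-72, -48, -12), (-163, -41, 23), (-155, -49, 31), (155, -111, -31), (120, -96, -36)],
   [(72, -24, 12), (48, -72, -36), (42, -66, -36), (27, 39, 24)],
   [(48, -72, -36), (120, -96, -36), (18, 6, -36), (42, -66, -36)],
   [(-48, 0, 36), (-42, 6, 36), (-27, -9, -24), (-72, -48, -12)],
   [(-48, 0, 36), (-120, -24, 36), (-18, 78, 36), (-42, 6, 36)]]

def fp (i : Fin 13) : List Z3 := fpList.getD i []

def planeList : List (Z3 × ℤ) :=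
  [((-3, 1, -1), 96),
   ((1, -1, -2), -168),
   ((3, -1, 8), -264),
   ((3, 1, -1), 96),
   ((-3, -1, -6), -264),
   ((-1, -1, 4), -168),
   ((0, -1, 1), 36),
   ((-1, 3, -8), -240),
   ((1, 3, 2), -240),
   ((2, 2, -3), 60),
   ((0, 0, 1), -36),
   ((-2, 2, -1), 60),
   ((0, 0, -1), -36)]

def plane (i : Fin 13) : Z3 × ℤ := planeList.getD i ((0, 0, 1), 0)

def fcList : List (List (Z3 × ℤ)) :=
  [[((-5, 3, 3), 432), ((-3, 1, -2), 120), ((1, 0, 0), 0), ((2, 0, 1), 24), ((5, 2, -4), 240), ((0, -1, 1), 31), ((0, -1, 0), 10), ((1, -1, 0), -17), ((0, 0, -1), 25), ((3, -5, 2), -84), ((-3, 1, 0), 132)],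
   [((9, -5, -4), -696), ((-1, 0, -5), 48), ((5, -2, 0), -240), ((1, 0, 1), 24), ((1, 0, -3), 0), ((1, -1, -1), -131), ((2, -3, 1), -132), ((0, -1, -1), 18), ((0, -1, -1), 19), ((1, -1, 0), -96)],
   [((3, -1, 2), -120), ((1, 0, 5), -48), ((2, 0, 1), -24), ((1, 0, 1), -23), ((1, 0, 1), -24), ((1, -1, 1), -36), ((1, -1, 2), -47), ((-1, -8, -1), 468), ((1, -1, 0), -17), ((0, 0, -1), 25), ((13, -11, 13), -564), ((0, 0, 1), 24)],
   [((-1, 0, 0), 0), ((-5, 2, 0), 240), ((-2, 0, -1), 24), ((3, 1, 0), 120), ((13, 5, -8), 552), ((0, -1, 1), 31), ((7, 1, 0), 228), ((3, 1, -2), 132), ((-1, -1, 0), 25), ((-1, 0, 0), 1)],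
   [((-2, 0, -1), -24), ((-2, 1, 1), 144), ((-1, 0, -1), -23), ((-3, -1, -2), -168), ((-1, 1, -14), 72), ((-1, -1, 0), -48), ((-2, -9, 11), 204), ((-1, -1, -1), -52), ((-11, -9, 6), -504), ((-1, -1, 1), -35)],
   [((-5, -2, 4), -240), ((-1, 0, 3), 0), ((-2, -1, 3), -144), ((-13, -5, 8), -552), ((1, -1, 14), -72), ((-1, -1, 1), -59), ((0, -1, 3), 18), ((-3, -8, -3), 516), ((-1, -1, -2), 48), ((-1, -1, 0), -23)],
   [((0, 1, -1), -35), ((-1, 1, -1), 37), ((-1, 1, -1), 36), ((1, 1, -1), 36), ((1, 1, -1), 37), ((1, -7, 12), 384), ((-1, -4, -1), 276), ((2, 3, -4), 24), ((1, 2, -3), 12), ((-2, 3, -2), 24), ((-1, 2, -1), 12)],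
   [((0, 1, -1), -35), ((-2, 3, -1), 132), ((-1, 1, -2), 45), ((2, 9, -11), -204), ((0, 1, -3), -18), ((-1, 4, -9), -276), ((-1, -1, -4), 80), ((0, 2, -3), -84), ((0, 0, -1), 32), ((-1, 4, -4), -96), ((-1, 3, 0), 48)],
   [((0, 1, -1), -35), ((0, 1, 1), -18), ((1, 8, 1), -468), ((1, 1, 0), 45), ((3, 8, 3), -516), ((1, 4, 1), -276), ((1, 1, 4), -80), ((1, 4, -4), -96), ((1, 3, -2), -96), ((0, 2, -1), -84), ((0, 0, 1), 32)],
   [((-1, 0, 0), -26), ((-1, 0, -1), -5), ((-7, -1, 0), -228), ((11, 5, 15), 852), ((1, 1, -1), 43), ((-2, -3, 4), -24), ((0, -2, 3), 84), ((-1, -4, 0), 240), ((1, 1, -2), 48), ((-1, -1, 0), 25)],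
   [((-1, 0, 0), -17), ((-1, 0, 1), -53), ((-1, 0, -1), 19), ((-3, -1, 2), -132), ((0, 0, 1), -35), ((1, 1, 2), -48), ((-1, -2, 3), -12), ((-1, -3, -1), 204), ((-1, -1, 2), -48), ((-1, -1, 0), 25)],
   [((-3, 5, -2), 84), ((-1, 1, -1), 43), ((-13, 11, -13), 564), ((1, 0, 0), -26), ((2, -3, 2), -24), ((1, -4, 4), 96), ((0, -2, 1), 84), ((1, -1, 0), -17), ((0, 0, -1), 25), ((-1, 1, 0), 48)],
   [((3, -1, 0), -132), ((-1, 1, 0), 96), ((0, 0, -1), -35), ((1, -2, -2), -120), ((1, -3, 0), -48), ((0, -1, -1), -11), ((1, -1, 0), -48)]]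

def fc (i : Fin 13) : List (Z3 × ℤ) := fcList.getD i []

structure Diag where
  a : Z3
  b : Z3
  c : Z3
  d : Z3
  α : ℤ
  β : ℤ
  γ : ℤ
  δ : ℤ

def dcList : List (List Diag) :=
  [[⟨(0, 120, 24), (-27, -9, -24), (0, 72, -24), (-18, 78, 36), 15, 8, 11, 12⟩,
    ⟨(0, 120, 24), (-42, 6, 36), (0, 72, -24), (-18, 78, 36), 5, 3, 1, 7⟩,
    ⟨(0, 72, -24), (-42, 6, 36), (-27, -9, -24), (0, 120, 24), 65, 36, 56, 45⟩,
    ⟨(0, 72, -24), (-18, 78, 36), (-27, -9, -24), (0, 120, 24), 11, 12, 8, 15⟩,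
    ⟨(-27, -9, -24), (0, 120, 24), (-42, 6, 36), (0, 72, -24), 56, 45, 36, 65⟩,
    ⟨(-27, -9, -24), (-18, 78, 36), (-42, 6, 36), (0, 72, -24), 8, 9, 9, 8⟩,
    ⟨(-42, 6, 36), (0, 120, 24), (-18, 78, 36), (-27, -9, -24), 33, 40, 65, 8⟩,
    ⟨(-42, 6, 36), (0, 72, -24), (-18, 78, 36), (-27, -9, -24), 9, 8, 9, 8⟩,
    ⟨(-18, 78, 36), (0, 72, -24), (0, 120, 24), (-42, 6, 36), 7, 1, 5, 3⟩,
    ⟨(-18, 78, 36), (-27, -9, -24), (0, 120, 24), (-42, 6, 36), 65, 8, 40, 33⟩],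
   [⟨(0, 120, 24), (-120, -24, 36), (-18, 78, 36), (18, 174, 6), 85, 3, 54, 34⟩,
    ⟨(0, 120, 24), (-155, -49, 31), (-18, 78, 36), (18, 174, 6), 715, 18, 444, 289⟩,
    ⟨(0, 120, 24), (-163, -41, 23), (-18, 78, 36), (18, 174, 6), 803, 18, 492, 329⟩,
    ⟨(0, 120, 24), (-18, 162, -6), (-18, 78, 36), (18, 174, 6), 14, 1, 8, 7⟩,
    ⟨(-18, 78, 36), (-155, -49, 31), (-120, -24, 36), (0, 120, 24), 10, 12, 17, 5⟩,
    ⟨(-18, 78, 36), (-163, -41, 23), (-120, -24, 36), (0, 120, 24), 346, 204, 329, 221⟩,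
    ⟨(-18, 78, 36), (-18, 162, -6), (-120, -24, 36), (0, 120, 24), 106, 34, 21, 119⟩,
    ⟨(-18, 78, 36), (18, 174, 6), (-120, -24, 36), (0, 120, 24), 54, 34, 3, 85⟩,
    ⟨(-120, -24, 36), (0, 120, 24), (-155, -49, 31), (-18, 78, 36), 17, 5, 12, 10⟩,
    ⟨(-120, -24, 36), (-163, -41, 23), (-155, -49, 31), (-18, 78, 36), 176, 85, 221, 40⟩,
    ⟨(-120, -24, 36), (-18, 162, -6), (-155, -49, 31), (-18, 78, 36), 959, 85, 714, 330⟩,
    ⟨(-120, -24, 36), (18, 174, 6), (-155, -49, 31), (-18, 78, 36), 143, 17, 102, 58⟩,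
    ⟨(-155, -49, 31), (0, 120, 24), (-163, -41, 23), (-120, -24, 36), 173, 20, 85, 108⟩,
    ⟨(-155, -49, 31), (-18, 78, 36), (-163, -41, 23), (-120, -24, 36), 221, 40, 85, 176⟩,
    ⟨(-155, -49, 31), (-18, 162, -6), (-163, -41, 23), (-120, -24, 36), 261, 20, 165, 116⟩,
    ⟨(-155, -49, 31), (18, 174, 6), (-163, -41, 23), (-120, -24, 36), 257, 20, 145, 132⟩,
    ⟨(-163, -41, 23), (0, 120, 24), (-18, 162, -6), (-155, -49, 31), 199, 58, 54, 203⟩,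
    ⟨(-163, -41, 23), (-18, 78, 36), (-18, 162, -6), (-155, -49, 31), 959, 232, 176, 1015⟩,
    ⟨(-163, -41, 23), (-120, -24, 36), (-18, 162, -6), (-155, -49, 31), 165, 116, 20, 261⟩,
    ⟨(-163, -41, 23), (18, 174, 6), (-18, 162, -6), (-155, -49, 31), 62, 29, 33, 58⟩,
    ⟨(-18, 162, -6), (0, 120, 24), (18, 174, 6), (-163, -41, 23), 123, 116, 203, 36⟩,
    ⟨(-18, 162, -6), (-18, 78, 36), (18, 174, 6), (-163, -41, 23), 803, 464, 1015, 252⟩,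
    ⟨(-18, 162, -6), (-120, -24, 36), (18, 174, 6), (-163, -41, 23), 257, 232, 261, 228⟩,
    ⟨(-18, 162, -6), (-155, -49, 31), (18, 174, 6), (-163, -41, 23), 33, 58, 29, 62⟩,
    ⟨(18, 174, 6), (-18, 78, 36), (0, 120, 24), (-18, 162, -6), 7, 8, 14, 1⟩,
    ⟨(18, 174, 6), (-120, -24, 36), (0, 120, 24), (-18, 162, -6), 53, 12, 38, 27⟩,
    ⟨(18, 174, 6), (-155, -49, 31), (0, 120, 24), (-18, 162, -6), 199, 36, 124, 111⟩,
    ⟨(18, 174, 6), (-163, -41, 23), (0, 120, 24), (-18, 162, -6), 203, 36, 116, 123⟩],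
   [⟨(0, 72, -24), (-163, -41, 23), (-18, 162, -6), (-27, -9, -24), 319, 54, 141, 232⟩,
    ⟨(0, 72, -24), (-72, -48, -12), (-18, 162, -6), (-27, -9, -24), 17, 9, 6, 20⟩,
    ⟨(-18, 162, -6), (-72, -48, -12), (-163, -41, 23), (0, 72, -24), 119, 174, 90, 203⟩,
    ⟨(-18, 162, -6), (-27, -9, -24), (-163, -41, 23), (0, 72, -24), 141, 232, 54, 319⟩,
    ⟨(-163, -41, 23), (0, 72, -24), (-72, -48, -12), (-18, 162, -6), 90, 203, 174, 119⟩,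
    ⟨(-163, -41, 23), (-27, -9, -24), (-72, -48, -12), (-18, 162, -6), 306, 812, 957, 161⟩,
    ⟨(-72, -48, -12), (0, 72, -24), (-27, -9, -24), (-163, -41, 23), 423, 161, 476, 108⟩,
    ⟨(-72, -48, -12), (-18, 162, -6), (-27, -9, -24), (-163, -41, 23), 957, 161, 812, 306⟩,
    ⟨(-27, -9, -24), (-18, 162, -6), (0, 72, -24), (-72, -48, -12), 20, 6, 17, 9⟩,
    ⟨(-27, -9, -24), (-163, -41, 23), (0, 72, -24), (-72, -48, -12), 476, 108, 161, 423⟩],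
   [⟨(0, 120, 24), (42, -66, -36), (27, 39, 24), (0, 72, -24), 65, 36, 56, 45⟩,
    ⟨(0, 120, 24), (18, 6, -36), (27, 39, 24), (0, 72, -24), 11, 12, 8, 15⟩,
    ⟨(27, 39, 24), (18, 6, -36), (42, -66, -36), (0, 120, 24), 8, 9, 9, 8⟩,
    ⟨(27, 39, 24), (0, 72, -24), (42, -66, -36), (0, 120, 24), 56, 45, 36, 65⟩,
    ⟨(42, -66, -36), (0, 120, 24), (18, 6, -36), (27, 39, 24), 9, 8, 9, 8⟩,
    ⟨(42, -66, -36), (0, 72, -24), (18, 6, -36), (27, 39, 24), 33, 40, 65, 8⟩,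
    ⟨(18, 6, -36), (0, 120, 24), (0, 72, -24), (42, -66, -36), 7, 1, 5, 3⟩,
    ⟨(18, 6, -36), (27, 39, 24), (0, 72, -24), (42, -66, -36), 65, 8, 40, 33⟩,
    ⟨(0, 72, -24), (27, 39, 24), (0, 120, 24), (18, 6, -36), 15, 8, 11, 12⟩,
    ⟨(0, 72, -24), (42, -66, -36), (0, 120, 24), (18, 6, -36), 5, 3, 1, 7⟩],
   [⟨(0, 120, 24), (163, -87, -23), (18, 174, 6), (27, 39, 24), 319, 54, 141, 232⟩,
    ⟨(0, 120, 24), (72, -24, 12), (18, 174, 6), (27, 39, 24), 17, 9, 6, 20⟩,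
    ⟨(18, 174, 6), (72, -24, 12), (163, -87, -23), (0, 120, 24), 119, 174, 90, 203⟩,
    ⟨(18, 174, 6), (27, 39, 24), (163, -87, -23), (0, 120, 24), 141, 232, 54, 319⟩,
    ⟨(163, -87, -23), (0, 120, 24), (72, -24, 12), (18, 174, 6), 90, 203, 174, 119⟩,
    ⟨(163, -87, -23), (27, 39, 24), (72, -24, 12), (18, 174, 6), 306, 812, 957, 161⟩,
    ⟨(72, -24, 12), (0, 120, 24), (27, 39, 24), (163, -87, -23), 423, 161, 476, 108⟩,
    ⟨(72, -24, 12), (18, 174, 6), (27, 39, 24), (163, -87, -23), 957, 161, 812, 306⟩,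
    ⟨(27, 39, 24), (18, 174, 6), (0, 120, 24), (72, -24, 12), 20, 6, 17, 9⟩,
    ⟨(27, 39, 24), (163, -87, -23), (0, 120, 24), (72, -24, 12), 476, 108, 161, 423⟩],
   [⟨(0, 72, -24), (120, -96, -36), (18, 6, -36), (-18, 162, -6), 85, 3, 54, 34⟩,
    ⟨(0, 72, -24), (155, -111, -31), (18, 6, -36), (-18, 162, -6), 715, 18, 444, 289⟩,
    ⟨(0, 72, -24), (163, -87, -23), (18, 6, -36), (-18, 162, -6), 803, 18, 492, 329⟩,
    ⟨(0, 72, -24), (18, 174, 6), (18, 6, -36), (-18, 162, -6), 14, 1, 8, 7⟩,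
    ⟨(18, 6, -36), (155, -111, -31), (120, -96, -36), (0, 72, -24), 10, 12, 17, 5⟩,
    ⟨(18, 6, -36), (163, -87, -23), (120, -96, -36), (0, 72, -24), 346, 204, 329, 221⟩,
    ⟨(18, 6, -36), (18, 174, 6), (120, -96, -36), (0, 72, -24), 106, 34, 21, 119⟩,
    ⟨(18, 6, -36), (-18, 162, -6), (120, -96, -36), (0, 72, -24), 54, 34, 3, 85⟩,
    ⟨(120, -96, -36), (0, 72, -24), (155, -111, -31), (18, 6, -36), 17, 5, 12, 10⟩,
    ⟨(120, -96, -36), (163, -87, -23), (155, -111, -31), (18, 6, -36), 176, 85, 221, 40⟩,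
    ⟨(120, -96, -36), (18, 174, 6), (155, -111, -31), (18, 6, -36), 959, 85, 714, 330⟩,
    ⟨(120, -96, -36), (-18, 162, -6), (155, -111, -31), (18, 6, -36), 143, 17, 102, 58⟩,
    ⟨(155, -111, -31), (0, 72, -24), (163, -87, -23), (120, -96, -36), 173, 20, 85, 108⟩,
    ⟨(155, -111, -31), (18, 6, -36), (163, -87, -23), (120, -96, -36), 221, 40, 85, 176⟩,
    ⟨(155, -111, -31), (18, 174, 6), (163, -87, -23), (120, -96, -36), 261, 20, 165, 116⟩,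
    ⟨(155, -111, -31), (-18, 162, -6), (163, -87, -23), (120, -96, -36), 257, 20, 145, 132⟩,
    ⟨(163, -87, -23), (0, 72, -24), (18, 174, 6), (155, -111, -31), 199, 58, 54, 203⟩,
    ⟨(163, -87, -23), (18, 6, -36), (18, 174, 6), (155, -111, -31), 959, 232, 176, 1015⟩,
    ⟨(163, -87, -23), (120, -96, -36), (18, 174, 6), (155, -111, -31), 165, 116, 20, 261⟩,
    ⟨(163, -87, -23), (-18, 162, -6), (18, 174, 6), (155, -111, -31), 62, 29, 33, 58⟩,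
    ⟨(18, 174, 6), (0, 72, -24), (-18, 162, -6), (163, -87, -23), 123, 116, 203, 36⟩,
    ⟨(18, 174, 6), (18, 6, -36), (-18, 162, -6), (163, -87, -23), 803, 464, 1015, 252⟩,
    ⟨(18, 174, 6), (120, -96, -36), (-18, 162, -6), (163, -87, -23), 257, 232, 261, 228⟩,
    ⟨(18, 174, 6), (155, -111, -31), (-18, 162, -6), (163, -87, -23), 33, 58, 29, 62⟩,
    ⟨(-18, 162, -6), (18, 6, -36), (0, 72, -24), (18, 174, 6), 7, 8, 14, 1⟩,
    ⟨(-18, 162, -6), (120, -96, -36), (0, 72, -24), (18, 174, 6), 53, 12, 38, 27⟩,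
    ⟨(-18, 162, -6), (155, -111, -31), (0, 72, -24), (18, 174, 6), 199, 36, 124, 111⟩,
    ⟨(-18, 162, -6), (163, -87, -23), (0, 72, -24), (18, 174, 6), 203, 36, 116, 123⟩],
   [⟨(72, -24, 12), (-72, -48, -12), (-48, 0, 36), (48, -72, -36), 1, 1, 1, 1⟩,
    ⟨(-48, 0, 36), (48, -72, -36), (-72, -48, -12), (72, -24, 12), 1, 1, 1, 1⟩,
    ⟨(-72, -48, -12), (72, -24, 12), (48, -72, -36), (-48, 0, 36), 1, 1, 1, 1⟩,
    ⟨(48, -72, -36), (-48, 0, 36), (72, -24, 12), (-72, -48, -12), 1, 1, 1, 1⟩],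
   [⟨(72, -24, 12), (155, -111, -31), (163, -87, -23), (-48, 0, 36), 15, 14, 22, 7⟩,
    ⟨(72, -24, 12), (-155, -49, 31), (163, -87, -23), (-48, 0, 36), 307, 84, 132, 259⟩,
    ⟨(72, -24, 12), (-120, -24, 36), (163, -87, -23), (-48, 0, 36), 59, 28, 24, 63⟩,
    ⟨(163, -87, -23), (-155, -49, 31), (155, -111, -31), (72, -24, 12), 341, 42, 259, 124⟩,
    ⟨(163, -87, -23), (-120, -24, 36), (155, -111, -31), (72, -24, 12), 87, 14, 63, 38⟩,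
    ⟨(163, -87, -23), (-48, 0, 36), (155, -111, -31), (72, -24, 12), 22, 7, 14, 15⟩,
    ⟨(155, -111, -31), (72, -24, 12), (-155, -49, 31), (163, -87, -23), 259, 124, 42, 341⟩,
    ⟨(155, -111, -31), (-120, -24, 36), (-155, -49, 31), (163, -87, -23), 145, 124, 114, 155⟩,
    ⟨(155, -111, -31), (-48, 0, 36), (-155, -49, 31), (163, -87, -23), 307, 124, 90, 341⟩,
    ⟨(-155, -49, 31), (72, -24, 12), (-120, -24, 36), (155, -111, -31), 261, 155, 341, 75⟩,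
    ⟨(-155, -49, 31), (163, -87, -23), (-120, -24, 36), (155, -111, -31), 114, 155, 124, 145⟩,
    ⟨(-155, -49, 31), (-48, 0, 36), (-120, -24, 36), (155, -111, -31), 201, 155, 341, 15⟩,
    ⟨(-120, -24, 36), (72, -24, 12), (-48, 0, 36), (-155, -49, 31), 44, 5, 25, 24⟩,
    ⟨(-120, -24, 36), (163, -87, -23), (-48, 0, 36), (-155, -49, 31), 307, 15, 145, 177⟩,
    ⟨(-120, -24, 36), (155, -111, -31), (-48, 0, 36), (-155, -49, 31), 341, 15, 155, 201⟩,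
    ⟨(-48, 0, 36), (163, -87, -23), (72, -24, 12), (-120, -24, 36), 63, 24, 59, 28⟩,
    ⟨(-48, 0, 36), (155, -111, -31), (72, -24, 12), (-120, -24, 36), 87, 24, 67, 44⟩,
    ⟨(-48, 0, 36), (-155, -49, 31), (72, -24, 12), (-120, -24, 36), 25, 24, 5, 44⟩],
   [⟨(48, -72, -36), (-163, -41, 23), (-72, -48, -12), (120, -96, -36), 63, 24, 59, 28⟩,
    ⟨(48, -72, -36), (-155, -49, 31), (-72, -48, -12), (120, -96, -36), 87, 24, 67, 44⟩,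
    ⟨(48, -72, -36), (155, -111, -31), (-72, -48, -12), (120, -96, -36), 25, 24, 5, 44⟩,
    ⟨(-72, -48, -12), (-155, -49, 31), (-163, -41, 23), (48, -72, -36), 15, 14, 22, 7⟩,
    ⟨(-72, -48, -12), (155, -111, -31), (-163, -41, 23), (48, -72, -36), 307, 84, 132, 259⟩,
    ⟨(-72, -48, -12), (120, -96, -36), (-163, -41, 23), (48, -72, -36), 59, 28, 24, 63⟩,
    ⟨(-163, -41, 23), (48, -72, -36), (-155, -49, 31), (-72, -48, -12), 22, 7, 14, 15⟩,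
    ⟨(-163, -41, 23), (155, -111, -31), (-155, -49, 31), (-72, -48, -12), 341, 42, 259, 124⟩,
    ⟨(-163, -41, 23), (120, -96, -36), (-155, -49, 31), (-72, -48, -12), 87, 14, 63, 38⟩,
    ⟨(-155, -49, 31), (48, -72, -36), (155, -111, -31), (-163, -41, 23), 307, 124, 90, 341⟩,
    ⟨(-155, -49, 31), (-72, -48, -12), (155, -111, -31), (-163, -41, 23), 259, 124, 42, 341⟩,
    ⟨(-155, -49, 31), (120, -96, -36), (155, -111, -31), (-163, -41, 23), 145, 124, 114, 155⟩,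
    ⟨(155, -111, -31), (48, -72, -36), (120, -96, -36), (-155, -49, 31), 201, 155, 341, 15⟩,
    ⟨(155, -111, -31), (-72, -48, -12), (120, -96, -36), (-155, -49, 31), 261, 155, 341, 75⟩,
    ⟨(155, -111, -31), (-163, -41, 23), (120, -96, -36), (-155, -49, 31), 114, 155, 124, 145⟩,
    ⟨(120, -96, -36), (-72, -48, -12), (48, -72, -36), (155, -111, -31), 44, 5, 25, 24⟩,
    ⟨(120, -96, -36), (-163, -41, 23), (48, -72, -36), (155, -111, -31), 307, 15, 145, 177⟩,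
    ⟨(120, -96, -36), (-155, -49, 31), (48, -72, -36), (155, -111, -31), 341, 15, 155, 201⟩],
   [⟨(72, -24, 12), (42, -66, -36), (48, -72, -36), (27, 39, 24), 5, 34, 35, 4⟩,
    ⟨(48, -72, -36), (27, 39, 24), (42, -66, -36), (72, -24, 12), 35, 4, 34, 5⟩,
    ⟨(42, -66, -36), (72, -24, 12), (27, 39, 24), (48, -72, -36), 34, 5, 4, 35⟩,
    ⟨(27, 39, 24), (48, -72, -36), (72, -24, 12), (42, -66, -36), 4, 35, 5, 34⟩],
   [⟨(48, -72, -36), (18, 6, -36), (120, -96, -36), (42, -66, -36), 17, 1, 1, 17⟩,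
    ⟨(120, -96, -36), (42, -66, -36), (18, 6, -36), (48, -72, -36), 1, 17, 1, 17⟩,
    ⟨(18, 6, -36), (48, -72, -36), (42, -66, -36), (120, -96, -36), 1, 17, 17, 1⟩,
    ⟨(42, -66, -36), (120, -96, -36), (48, -72, -36), (18, 6, -36), 17, 1, 17, 1⟩],
   [⟨(-48, 0, 36), (-27, -9, -24), (-42, 6, 36), (-72, -48, -12), 35, 4, 34, 5⟩,
    ⟨(-42, 6, 36), (-72, -48, -12), (-27, -9, -24), (-48, 0, 36), 34, 5, 4, 35⟩,
    ⟨(-27, -9, -24), (-48, 0, 36), (-72, -48, -12), (-42, 6, 36), 4, 35, 5, 34⟩,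
    ⟨(-72, -48, -12), (-42, 6, 36), (-48, 0, 36), (-27, -9, -24), 5, 34, 35, 4⟩],
   [⟨(-48, 0, 36), (-18, 78, 36), (-120, -24, 36), (-42, 6, 36), 17, 1, 1, 17⟩,
    ⟨(-120, -24, 36), (-42, 6, 36), (-18, 78, 36), (-48, 0, 36), 1, 17, 1, 17⟩,
    ⟨(-18, 78, 36), (-48, 0, 36), (-42, 6, 36), (-120, -24, 36), 1, 17, 17, 1⟩,
    ⟨(-42, 6, 36), (-120, -24, 36), (-48, 0, 36), (-18, 78, 36), 17, 1, 17, 1⟩]]

def dc (i : Fin 13) : List Diag := dcList.getD i []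

def t0 : Tri := ⟨0, 1, 16, 17, (0, 72, -24), (-27, -9, -24), (-42, 6, 36), (1, 2), (2, 3), (1, 3),
  [(6, 1, 2), (1, -3, 1), (-2, 1, 0), (-3, 1, -1), (-2, 4, 3)],
  [(6, -7), (-7, 2), (1, 4), (-1, 0), (1, -1), (0, 0), (0, 1)]⟩

def t1 : Tri := ⟨0, 1, 17, 18, (0, 72, -24), (-42, 6, 36), (-18, 78, 36), (1, 2), (1, 3), (0, 3),
  [(2, -4, -3), (-3, 1, -1), (4, 1, 0), (0, -1, -1), (1, 3, 0), (-4, 0, -3)],
  [(7, -2), (-6, -1), (1, 3), (-1, -1), (0, 0), (0, 1), (1, 0)]⟩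

def t2 : Tri := ⟨0, 0, 1, 18, (0, 120, 24), (0, 72, -24), (-18, 78, 36), (0, 2), (1, 2), (0, 3),
  [(-1, -3, 0), (-3, 1, -1), (7, 2, -2), (-2, 0, -1)],
  [(7, 6), (-4, -5), (-1, 0), (0, -1), (1, 2), (0, 0), (1, 1)]⟩

def t3 : Tri := ⟨1, 15, 3, 2, (-163, -41, 23), (-18, 162, -6), (18, 174, 6), (4, 3), (3, 2), (6, 2),
  [(99, -82, 17), (1, -1, -2)],
  [(-1, -11), (1, 10), (-1, 1), (2, -1), (1, 2), (0, 0), (0, -1)]⟩

def t4 : Tri := ⟨1, 14, 15, 2, (-155, -49, 31), (-163, -41, 23), (18, 174, 6), (5, 3), (4, 3), (6, 2),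
  [(99, -74, 25), (-1, 0, -8), (1, -1, -2), (0, 0, -1), (-116, 99, 17)],
  [(-4, -9), (1, 4), (2, 1), (-1, 0), (0, 0), (0, 1), (1, 1), (-1, -2)]⟩

def t5 : Tri := ⟨1, 19, 14, 2, (-120, -24, 36), (-155, -49, 31), (18, 174, 6), (6, 3), (5, 3), (6, 2),
  [(14, -9, 5), (-1, 0, -7), (1, -1, -2), (0, -1, -2), (-124, 99, 25)],
  [(-7, -8), (7, 2), (0, 1), (2, -1), (-1, -1), (0, 0), (1, 0)]⟩

def t6 : Tri := ⟨1, 18, 19, 2, (-18, 78, 36), (-120, -24, 36), (18, 174, 6), (7, 3), (6, 3), (6, 2),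
  [(1, -2, -7), (8, -3, 0), (1, -1, -2), (-1, 0, -6), (-19, 14, 5)],
  [(-7, -5), (5, 2), (1, 5), (1, -1), (-1, 1), (0, 0), (-1, 0), (0, 1)]⟩

def t7 : Tri := ⟨1, 0, 18, 2, (0, 120, 24), (-18, 78, 36), (18, 174, 6), (7, 2), (7, 3), (6, 2),
  [(0, -1, -4), (1, -1, -2), (-6, 1, -4)],
  [(-7, -5), (5, 2), (-1, 1), (0, -1), (1, 2), (1, -1), (0, 0), (1, 0)]⟩

def t8 : Tri := ⟨2, 3, 15, 13, (-18, 162, -6), (-163, -41, 23), (-72, -48, -12), (3, 2), (4, 3), (3, 3),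
  [(7, -2, 7), (3, -1, 8)],
  [(7, -8), (-7, 2), (2, 3), (-2, -1), (0, 0), (-1, 0), (0, 1), (1, -1)]⟩

def t9 : Tri := ⟨2, 3, 13, 16, (-18, 162, -6), (-72, -48, -12), (-27, -9, -24), (3, 2), (3, 3), (2, 3),
  [(3, -1, 8), (5, -1, 7), (1, 0, 6), (0, -1, 1), (-4, 1, 1)],
  [(7, -5), (-6, 1), (1, 5), (-1, -1), (0, 0), (0, 1), (1, 0)]⟩

def t10 : Tri := ⟨2, 1, 3, 16, (0, 72, -24), (-18, 162, -6), (-27, -9, -24), (1, 2), (3, 2), (2, 3),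
  [(3, -1, 8), (1, -1, 5), (-2, 0, 1), (0, 0, 1)],
  [(7, 5), (-8, -11), (-1, 1), (0, -1), (1, 4), (0, 0), (1, 1)]⟩

def t11 : Tri := ⟨3, 9, 10, 1, (42, -66, -36), (18, 6, -36), (0, 72, -24), (1, 1), (2, 1), (1, 2),
  [(0, -1, 8), (-1, -1, 8), (3, 1, -1)],
  [(6, 7), (-3, -1), (1, -4), (-1, 0), (1, 1), (-1, -2), (0, 0), (0, -1)]⟩

def t12 : Tri := ⟨3, 8, 9, 1, (27, 39, 24), (42, -66, -36), (0, 72, -24), (0, 1), (1, 1), (1, 2),
  [(-4, 1, 0), (-1, -3, 5), (8, 3, -6), (8, 8, 1), (0, 0, 0), (2, 1, -5), (-5, -1, -6)],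
  [(7, 6), (-6, -1), (1, -3), (-1, 3), (-1, 1), (0, -1), (0, 0), (1, 0)]⟩

def t13 : Tri := ⟨3, 0, 8, 1, (0, 120, 24), (27, 39, 24), (0, 72, -24), (0, 2), (0, 1), (1, 2),
  [(1, -5, -4), (-7, 2, -2), (3, 1, -1), (5, 2, -4)],
  [(7, 6), (-6, -1), (1, -2), (0, 1), (-1, 1), (1, -1), (0, 0), (-1, 0)]⟩

def t14 : Tri := ⟨4, 6, 4, 8, (163, -87, -23), (72, -24, 12), (27, 39, 24), (6, 1), (7, 0), (7, 1),
  [(-1, 0, -3), (-3, -1, -6), (16, 21, -10)],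
  [(-4, 9), (-1, -8), (1, 0), (0, 1), (-1, -1), (0, 0)]⟩

def t15 : Tri := ⟨4, 2, 6, 8, (18, 174, 6), (163, -87, -23), (27, 39, 24), (6, 2), (6, 1), (7, 1),
  [(-3, -1, -6), (-2, 0, 1), (-1, -1, 0), (-16, -115, 262)],
  [(-7, 4), (5, 1), (0, -1), (1, 1), (-1, 0), (0, 0)]⟩

def t16 : Tri := ⟨4, 0, 2, 8, (0, 120, 24), (18, 174, 6), (27, 39, 24), (7, 2), (6, 2), (7, 1),
  [(-1, -1, -7), (-3, -1, -6)],
  [(-7, -5), (7, 5), (0, 1), (1, -2), (-1, -1), (1, 0), (0, 0)]⟩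

def t17 : Tri := ⟨5, 11, 7, 6, (120, -96, -36), (155, -111, -31), (163, -87, -23), (3, 1), (3, 0), (6, 1),
  [(0, 1, 0), (-1, -1, 4), (2, 15, -17)],
  [(-1, 11), (1, -9), (-2, -1), (2, 1), (-1, 0), (0, 1), (1, -3), (0, 0)]⟩

def t18 : Tri := ⟨5, 6, 2, 3, (163, -87, -23), (18, 174, 6), (-18, 162, -6), (6, 1), (6, 2), (3, 2),
  [(-116, -99, 215), (-1, -1, 4)],
  [(1, 11), (-2, -9), (1, 0), (-2, -1), (0, 1), (0, 0), (-1, -3)]⟩

def t19 : Tri := ⟨5, 11, 6, 3, (120, -96, -36), (163, -87, -23), (-18, 162, -6), (3, 1), (6, 1), (3, 2),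
  [(-19, -14, 33), (17, -17, 430), (-1, -2, 2), (0, 0, 0), (0, -1, 2), (13, -13, -34)],
  [(1, 3), (-1, -8), (-1, 0), (1, -4), (0, 0), (0, -1)]⟩

def t20 : Tri := ⟨5, 10, 11, 3, (18, 6, -36), (120, -96, -36), (-18, 162, -6), (2, 1), (3, 1), (3, 2),
  [(5, -5, 66), (-7, -3, 7), (-1, -1, 4), (-1, -2, 2), (-6, -1, -2)],
  [(7, 5), (-6, -1), (1, -5), (-1, 1), (0, 0), (0, -1), (1, 0)]⟩

def t21 : Tri := ⟨5, 1, 10, 3, (0, 72, -24), (18, 6, -36), (-18, 162, -6), (1, 2), (2, 1), (3, 2),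
  [(0, -1, 6), (-1, -1, 4), (5, 0, 6)],
  [(7, 5), (-11, -2), (1, -4), (0, 1), (-1, -1), (1, -1), (0, 0)]⟩

def t22 : Tri := ⟨6, 4, 12, 13, (72, -24, 12), (-48, 0, 36), (-72, -48, -12), (7, 4), (6, 4), (10, 3),
  [(1, 2, -3), (-2, 3, -2), (0, -1, 1), (1, -3, -3)],
  [(-4, -9), (2, 9), (1, -1), (-1, -4), (-1, 1), (1, 3), (0, 0), (0, 1)]⟩

def t23 : Tri := ⟨6, 4, 13, 5, (72, -24, 12), (-72, -48, -12), (48, -72, -36), (7, 4), (10, 3), (9, 4),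
  [(-1, 4, 2), (2, 3, -4), (0, -1, 1), (0, -2, 3)],
  [(-4, -9), (2, 9), (1, 1), (-1, 1), (1, -1), (-1, -3), (0, 0), (0, 1)]⟩

def t24 : Tri := ⟨7, 14, 19, 12, (-155, -49, 31), (-120, -24, 36), (-48, 0, 36), (5, 3), (6, 3), (6, 4),
  [(0, 1, -4), (-1, 3, -8), (5, -5, -58)],
  [(-6, -11), (4, 1), (-1, 1), (1, -1), (0, 0), (0, -1), (1, 0)]⟩

def t25 : Tri := ⟨7, 7, 14, 12, (155, -111, -31), (-155, -49, 31), (-48, 0, 36), (3, 4), (5, 3), (6, 4),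
  [(0, 2, -3), (-1, 3, -8), (-22, 51, -29), (0, 1, -2), (67, -67, 314)],
  [(-6, -11), (4, 1), (-1, 4), (1, -1), (-1, -2), (0, 0), (0, 1)]⟩

def t26 : Tri := ⟨7, 6, 7, 12, (163, -87, -23), (155, -111, -31), (-48, 0, 36), (6, 1), (3, 0), (6, 0),
  [(-1, 3, -8), (-1, 1, -1), (0, 2, -3), (-22, -135, 157), (0, 3, -4), (59, -59, 298)],
  [(-1, 3), (1, -10), (2, 1), (-1, -3), (0, 0), (0, -1), (1, 0)]⟩

def t27 : Tri := ⟨7, 4, 6, 12, (72, -24, 12), (163, -87, -23), (-48, 0, 36), (7, 0), (6, 1), (6, 0),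
  [(-1, 3, -8), (-1, 1, -5), (0, -1, -1), (-14, -135, 149)],
  [(-4, 9), (1, -8), (1, 1), (-1, -5), (0, 0), (-1, 0), (0, -1)]⟩

def t28 : Tri := ⟨8, 15, 14, 7, (-163, -41, 23), (-155, -49, 31), (155, -111, -31), (4, 3), (5, 3), (3, 4),
  [(13, 93, -44), (1, 3, 2)],
  [(-2, -9), (4, 9), (-2, -1), (1, 0), (-1, 1), (0, 0), (-1, -1), (0, -1), (1, 2)]⟩

def t29 : Tri := ⟨8, 13, 15, 7, (-72, -48, -12), (-163, -41, 23), (155, -111, -31), (3, 3), (4, 3), (3, 4),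
  [(2, 7, 1), (0, 1, 2), (1, 3, -1), (1, 3, 2), (1, -1, 7), (-35, -132, -35), (22, 123, -145)],
  [(2, -11), (-1, 11), (-2, -1), (1, 1), (0, 0), (-1, 0), (0, -1)]⟩

def t30 : Tri := ⟨8, 5, 13, 7, (48, -72, -36), (-72, -48, -12), (155, -111, -31), (9, 4), (10, 3), (10, 4),
  [(1, 3, 2), (1, 2, 4), (22, 51, -73), (-1, 1, -1), (-63, -208, -63)],
  [(-5, -6), (2, 7), (1, -1), (0, 1), (1, 0), (-1, -1), (0, 0)]⟩

def t31 : Tri := ⟨8, 5, 7, 11, (48, -72, -36), (155, -111, -31), (120, -96, -36), (2, 0), (3, 0), (3, 1),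
  [(0, 1, 2), (1, 3, 2), (0, 0, 1), (-39, -112, -39)],
  [(4, 11), (-1, -10), (-1, 1), (1, -1), (0, 0), (0, -1), (1, 0)]⟩

def t32 : Tri := ⟨9, 5, 9, 8, (48, -72, -36), (42, -66, -36), (27, 39, 24), (2, 0), (1, 1), (0, 1),
  [(-1, 1, -2), (0, -2, 3), (2, 2, -3), (7, -3, 8)],
  [(7, 10), (-9, -7), (-1, -3), (0, 1), (2, 1), (0, 0), (1, 1), (-1, -2)]⟩

def t33 : Tri := ⟨9, 4, 5, 8, (72, -24, 12), (48, -72, -36), (27, 39, 24), (0, 0), (2, 0), (0, 1),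
  [(-7, 3, -8), (2, 2, -3), (-2, -5, 6), (0, -2, 3)],
  [(6, 11), (-2, -9), (-1, 0), (1, 2), (1, -1), (0, 0), (0, -1)]⟩

def t34 : Tri := ⟨10, 5, 11, 10, (48, -72, -36), (120, -96, -36), (18, 6, -36), (2, 0), (3, 1), (2, 1),
  [(0, 0, 1), (-5, -2, 5), (-8, -3, 5), (-13, -5, 2)],
  [(4, 11), (-1, -10), (-1, 0), (1, -1), (0, 1), (0, 0)]⟩

def t35 : Tri := ⟨10, 5, 10, 9, (48, -72, -36), (18, 6, -36), (42, -66, -36), (2, 0), (2, 1), (1, 1),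
  [(0, 0, 1), (13, 5, 2)],
  [(9, 11), (-3, -1), (3, -2), (-2, -3), (-1, 1), (0, 0), (-1, -1), (0, 1), (1, 0)]⟩

def t36 : Tri := ⟨11, 12, 17, 16, (-48, 0, 36), (-42, 6, 36), (-27, -9, -24), (6, 4), (8, 3), (9, 3),
  [(1, 1, 0), (0, -2, 1), (-2, 2, -1), (-2, 1, -2), (-5, -5, -1)],
  [(-7, -10), (1, 3), (1, -2), (-1, 1), (-1, -2), (0, 0), (0, -1)]⟩

def t37 : Tri := ⟨11, 12, 16, 13, (-48, 0, 36), (-27, -9, -24), (-72, -48, -12), (6, 4), (9, 3), (10, 3),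
  [(5, 5, 1), (-2, 2, -1), (2, -8, 7)],
  [(-4, -9), (1, 4), (1, -1), (-1, 1), (-1, -3), (0, 0), (0, -1)]⟩

def t38 : Tri := ⟨12, 12, 19, 18, (-48, 0, 36), (-120, -24, 36), (-18, 78, 36), (6, 4), (6, 3), (7, 3),
  [(0, 0, -1), (13, -5, 0)],
  [(-7, -10), (6, 5), (-2, 1), (0, -1), (1, 1), (0, 0), (-1, 0)]⟩

def t39 : Tri := ⟨12, 12, 18, 17, (-48, 0, 36), (-18, 78, 36), (-42, 6, 36), (6, 4), (7, 3), (8, 3),
  [(0, 0, -1), (-13, 5, 0)],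
  [(-9, -11), (6, 11), (1, -1), (-2, 1), (1, 2), (-1, -1), (0, 0), (0, -1)]⟩

def triList : List Tri :=
  [t0, t1, t2, t3, t4, t5, t6, t7, t8, t9, t10, t11, t12, t13, t14, t15, t16, t17, t18, t19, t20, t21, t22, t23, t24, t25, t26, t27, t28, t29, t30, t31, t32, t33, t34, t35, t36, t37, t38, t39]

def tri (i : Fin 40) : Tri := triList.getD i t0

theorem tri_mem : ∀ i, tri i ∈ triList := by
  intro i
  have h : (i : ℕ) < triList.length := i.2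
  rw [tri, List.getD_eq_getElem _ _ h]
  exact List.getElem_mem h

theorem all_good : triList.all (fun t => decide (t.good pos)) = true := by decide +kernel

theorem all_face : triList.all (fun t =>
    decide (t.pa ∈ fp t.f ∧ t.pb ∈ fp t.f ∧ t.pc ∈ fp t.f)) = true := by decide +kernel

theorem all_c3 : triList.all (fun t => triList.all fun u => t.c3.any (check3 t u)) = true := by
  decide +kernel

theorem all_c2 : triList.all (fun t => triList.all fun u => zs.all fun z =>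
    t.c2.any (check2 t u z)) = true := by
  decide +kernel

theorem all_cons : triList.all (fun t => triList.all fun u => zs.any (cons t u)) = true := by
  decide +kernel

theorem plane_ok : ∀ i, (plane i).1.2.2 ≠ 0 ∧ ∀ q ∈ fp i, dot (plane i).1 q = (plane i).2 := by
  decide +kernel

theorem noncol_ok : ∀ i, ∃ a ∈ fp i, ∃ b ∈ fp i, ∃ c ∈ fp i, det2 (pr a) (pr b) (pr c) ≠ 0 := by
  decide +kernel

theorem noncop_ok : ∀ i j, i ≠ j →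
    ∃ a ∈ fp i, ∃ b ∈ fp i, ∃ c ∈ fp i, ∃ d ∈ fp j, det3 a b c d ≠ 0 := by
  decide +kernel

set_option synthInstance.maxSize 2000 in
theorem sep_ok : ∀ i j, i ≠ j → ∃ l ∈ fc i,
    (∀ q ∈ fp i, dot l.1 q ≤ l.2 ∧ (dot l.1 q = l.2 → q ∈ fp j)) ∧
    (∀ q ∈ fp j, l.2 ≤ dot l.1 q ∧ (dot l.1 q = l.2 → q ∈ fp i)) := by
  decide +kernel

set_option synthInstance.maxSize 2000 in
theorem two_ok : ∀ i j, i ≠ j → ∀ q ∈ fp i, q ∈ fp j → ∀ r ∈ fp i, r ∈ fp j → q ≠ r →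
    ∀ x ∈ fp i, x ∈ fp j → x = q ∨ x = r := by
  decide +kernel

set_option synthInstance.maxSize 2000 in
theorem uniq_ok : ∀ i j, j ≠ i → ∀ q ∈ fp i, q ∈ fp j → ∀ r ∈ fp i, r ∈ fp j → q ≠ r →
    ∀ k, k ≠ i → q ∈ fp k → r ∈ fp k → k = j := by
  decide +kernel

def Diag.ok (D : Diag) (i : Fin 13) (q r : Z3) : Prop :=
  D.a = q ∧ D.b = r ∧ D.c ∈ fp i ∧ D.d ∈ fp i ∧ 0 ≤ D.α ∧ 0 ≤ D.β ∧ 0 < D.γ ∧ 0 < D.δ ∧
    D.α + D.β = D.γ + D.δ ∧ D.α * q.1 + D.β * r.1 = D.γ * D.c.1 + D.δ * D.d.1 ∧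
    D.α * q.2.1 + D.β * r.2.1 = D.γ * D.c.2.1 + D.δ * D.d.2.1 ∧
    D.α * q.2.2 + D.β * r.2.2 = D.γ * D.c.2.2 + D.δ * D.d.2.2 ∧
    det2 (pr q) (pr r) (pr D.c) ≠ 0

instance (D : Diag) (i : Fin 13) (q r : Z3) : Decidable (D.ok i q r) := by
  unfold Diag.ok; infer_instance

theorem diag_ok : ∀ i, ∀ q ∈ fp i, ∀ r ∈ fp i, q ≠ r →
    (∃ j, j ≠ i ∧ q ∈ fp j ∧ r ∈ fp j) ∨ ∃ D ∈ dc i, D.ok i q r := by
  decide +kernel

end Pool.Agent.P.MP_c9efbf_co
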