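import Pool.Agent.P.MP_c9efbf_co.Cover

/-! The union of the 13 faces is a torus, and the incidence properties of the faces. -/

namespace Pool.Agent.P.MP_c9efbf_co

open Set

abbrev K := Fin 40 × stdSimplex ℝ (Fin 3)

def fmap (k : K) : E3 := fpt (tri k.1) k.2.1

noncomputable def gmap (k : K) : AddCircle (7 : ℝ) × AddCircle (4 : ℝ) :=
  ((gx (tri k.1) k.2.1 : ℝ), (gy (tri k.1) k.2.1 : ℝ))

theorem fmap_cont : Continuous fmap := by
  rw [continuous_prod_of_discrete_left]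
  intro i
  have h : Continuous (fpt (tri i)) := by
    unfold fpt
    fun_prop
  exact h.comp continuous_subtype_val

theorem gmap_cont : Continuous gmap := by
  rw [continuous_prod_of_discrete_left]
  intro i
  have h1 : Continuous (gx (tri i)) := by
    unfold gx
    fun_prop
  have h2 : Continuous (gy (tri i)) := by
    unfold gy
    fun_prop
  exact Continuous.prodMk ((AddCircle.continuous_mk' _).comp (h1.comp continuous_subtype_val))
    ((AddCircle.continuous_mk' _).comp (h2.comp continuous_subtype_val))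

instance fact7 : Fact ((0 : ℝ) < 7) := ⟨by norm_num⟩
instance fact4 : Fact ((0 : ℝ) < 4) := ⟨by norm_num⟩

theorem gmap_surj : Function.Surjective gmap := by
  rintro ⟨a, b⟩
  obtain ⟨x, ⟨hx0, hx1⟩, rfl⟩ := a.eq_coe_Ico
  obtain ⟨y, ⟨hy0, hy1⟩, rfl⟩ := b.eq_coe_Ico
  have key : ∀ x' : ℝ, (x' : AddCircle (7 : ℝ)) = x →
      (∃ i, ∃ s ∈ stdSimplex ℝ (Fin 3), gx (tri i) s = x' ∧ gy (tri i) s = y) →
      ∃ k, gmap k = ((x : AddCircle (7 : ℝ)), (y : AddCircle (4 : ℝ))) := by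
    rintro x' hx' ⟨i, s, hs, e1, e2⟩
    exact ⟨(i, ⟨s, hs⟩), by simp only [gmap, e1, e2, hx']⟩
  rcases le_total y 1 with h1 | h1
  · exact key x rfl (strip0 x y hx0 hx1.le hy0 h1)
  rcases le_total y 2 with h2 | h2
  · exact key x rfl (strip1 x y hx0 hx1.le h1 h2)
  rcases le_total y 3 with h3 | h3
  · exact key x rfl (strip2 x y hx0 hx1.le h2 h3)
  rcases le_total x 3 with h4 | h4
  · exact key (x + 7) (AddCircle.coe_add_period 7 x)
      (strip3 (x + 7) y (by linarith) (by linarith) h3 hy1.le)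
  · exact key x rfl (strip3 x y h4 (by linarith) h3 hy1.le)

theorem coe_eq_iff {T : ℝ} (x y : ℝ) :
    (x : AddCircle T) = y ↔ ∃ n : ℤ, x = y + n * T := by
  rw [← sub_eq_zero, ← AddCircle.coe_sub, AddCircle.coe_eq_zero_iff]
  refine exists_congr fun n => ?_
  rw [zsmul_eq_mul]
  constructor <;> intro h <;> linarith

theorem fmap_iff (k k' : K) : fmap k = fmap k' ↔ bary (tri k.1) k.2.1 = bary (tri k'.1) k'.2.1 := by
  constructor
  · intro h
    have h1 := List.all_eq_true.1 (List.all_eq_true.1 all_c3 _ (tri_mem k.1)) _ (tri_mem k'.1)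
    obtain ⟨l, -, hl⟩ := List.any_eq_true.1 h1
    exact bary_eq_of_fpt (tri_good _) (tri_good _) k.2.2 k'.2.2 hl h
  · exact fpt_eq_of_bary (tri_good _) (tri_good _)

theorem gmap_iff (k k' : K) : gmap k = gmap k' ↔ bary (tri k.1) k.2.1 = bary (tri k'.1) k'.2.1 := by
  constructor
  · intro h
    obtain ⟨n, hn⟩ := (coe_eq_iff _ _).1 (congrArg Prod.fst h)
    obtain ⟨m, hm⟩ := (coe_eq_iff _ _).1 (congrArg Prod.snd h)
    obtain ⟨a0, a1, a2, a3⟩ := g_bounds (tri_good k.1) k.2.2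
    obtain ⟨b0, b1, b2, b3⟩ := g_bounds (tri_good k'.1) k'.2.2
    have n1 : n < 2 := by
      have : (n : ℝ) < 2 := by linarith
      exact_mod_cast this
    have n2 : -2 < n := by
      have : (-2 : ℝ) < n := by linarith
      exact_mod_cast this
    have m1 : m < 2 := by
      have : (m : ℝ) < 2 := by linarith
      exact_mod_cast this
    have m2 : -2 < m := by
      have : (-2 : ℝ) < m := by linarith
      exact_mod_cast this
    have hz : (n * 7, m * 4) ∈ zs := by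
      interval_cases n <;> interval_cases m <;> decide
    have h1 := List.all_eq_true.1 (List.all_eq_true.1
      (List.all_eq_true.1 all_c2 _ (tri_mem k.1)) _ (tri_mem k'.1)) _ hz
    obtain ⟨l, -, hl⟩ := List.any_eq_true.1 h1
    exact bary_eq_of_g (tri_good _) k.2.2 k'.2.2 hl (by push_cast; exact hn)
      (by push_cast; exact hm)
  · intro h
    have h1 := List.all_eq_true.1 (List.all_eq_true.1 all_cons _ (tri_mem k.1)) _ (tri_mem k'.1)
    obtain ⟨z, hz, hc⟩ := List.any_eq_true.1 h1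
    obtain ⟨e1, e2⟩ := g_eq_of_bary (tri_good _) (tri_good _) k'.2.2 hc h
    have hz' : ∀ z ∈ zs, z.1 = z.1 / 7 * 7 ∧ z.2 = z.2 / 4 * 4 := by decide
    refine Prod.ext ((coe_eq_iff _ _).2 ⟨z.1 / 7, ?_⟩) ((coe_eq_iff _ _).2 ⟨z.2 / 4, ?_⟩)
    · rw [e1]
      congr 1
      exact_mod_cast (hz' z hz).1
    · rw [e2]
      congr 1
      exact_mod_cast (hz' z hz).2

theorem range_fmap : range fmap = ⋃ i, face i := by
  apply Subset.antisymm
  · rintro _ ⟨k, rfl⟩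
    exact mem_iUnion.2 ⟨_, fpt_mem_face k.1 k.2.2⟩
  · intro x hx
    obtain ⟨f, hf⟩ := mem_iUnion.1 hx
    obtain ⟨i, s, hs, h⟩ := cover_face f hf
    exact ⟨(i, ⟨s, hs⟩), h⟩

theorem torus : Nonempty ((⋃ i, face i : Set E3) ≃ₜ Circle × Circle) := by
  obtain ⟨e⟩ := homeo_of_same_fibres fmap gmap fmap_cont gmap_cont gmap_surj
    fun k k' => (fmap_iff k k').trans (gmap_iff k k').symm
  rw [range_fmap] at e
  exact ⟨e.trans ((AddCircle.homeomorphCircle (by norm_num)).prodCongr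
    (AddCircle.homeomorphCircle (by norm_num)))⟩

theorem polygon (i : Fin 13) : ∃ V : Finset E3, face i = convexHull ℝ (V : Set E3) ∧
    Coplanar ℝ (face i) ∧ ¬ Collinear ℝ (face i) := by
  classical
  refine ⟨((fp i).map pt).toFinset, ?_, ?_, ?_⟩
  · rw [face]
    congr 1
    ext y
    simp [vs]
  · exact coplanar_of_lin _ (plane_ok i).1 _ fun x hx => face_plane i hx
  · obtain ⟨a, ha, b, hb, c, hc, h⟩ := noncol_ok i
    exact not_collinear (pt_mem_face ha) (pt_mem_face hb) (pt_mem_face hc) h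

theorem noncoplanar {i j : Fin 13} (h : i ≠ j) : ¬ Coplanar ℝ (face i ∪ face j) := by
  obtain ⟨a, ha, b, hb, c, hc, d, hd, h⟩ := noncop_ok i j h
  exact not_coplanar (Or.inl (pt_mem_face ha)) (Or.inl (pt_mem_face hb)) (Or.inl (pt_mem_face hc))
    (Or.inr (pt_mem_face hd)) h

theorem inter_faces {i j : Fin 13} (h : i ≠ j) :
    face i ∩ face j = convexHull ℝ (pt '' {q | q ∈ fp i ∧ q ∈ fp j}) ∧
      IsExtreme ℝ (face i) (convexHull ℝ (pt '' {q | q ∈ fp i ∧ q ∈ fp j})) ∧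
      IsExtreme ℝ (face j) (convexHull ℝ (pt '' {q | q ∈ fp i ∧ q ∈ fp j})) := by
  obtain ⟨l, -, h1, h2⟩ := sep_ok i j h
  refine sep_hull (lin l.1) l.2 ?_ ?_ ?_
  · rintro _ ⟨q, hq, rfl⟩
    rw [lin_pt]
    exact ⟨by exact_mod_cast (h1 q hq).1,
      fun h => ⟨q, ⟨hq, (h1 q hq).2 (by exact_mod_cast h)⟩, rfl⟩⟩
  · rintro _ ⟨q, hq, rfl⟩
    rw [lin_pt]
    exact ⟨by exact_mod_cast (h2 q hq).1,
      fun h => ⟨q, ⟨(h2 q hq).2 (by exact_mod_cast h), hq⟩, rfl⟩⟩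
  · rintro _ ⟨q, hq, rfl⟩
    exact ⟨⟨q, hq.1, rfl⟩, ⟨q, hq.2, rfl⟩⟩

theorem common_two {i j : Fin 13} (h : i ≠ j) {q r : Z3} (hq : q ∈ fp i) (hq' : q ∈ fp j)
    (hr : r ∈ fp i) (hr' : r ∈ fp j) (hqr : q ≠ r) :
    convexHull ℝ (pt '' {q | q ∈ fp i ∧ q ∈ fp j}) = segment ℝ (pt q) (pt r) := by
  rw [← convexHull_pair]
  congr 1
  apply Subset.antisymm
  · rintro _ ⟨x, hx, rfl⟩
    rcases two_ok i j h q hq hq' r hr hr' hqr x hx.1 hx.2 with rfl | rfl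
    · exact Or.inl rfl
    · exact Or.inr rfl
  · rintro _ (rfl | rfl)
    · exact ⟨q, ⟨hq, hq'⟩, rfl⟩
    · exact ⟨r, ⟨hr, hr'⟩, rfl⟩

/-- `e` is an edge of `F`. -/
def Edge (F e : Set E3) : Prop := ∃ a b, a ≠ b ∧ e = segment ℝ a b ∧ IsExtreme ℝ F e

theorem edge_of_two {i j : Fin 13} (h : i ≠ j) {q r : Z3} (hq : q ∈ fp i) (hq' : q ∈ fp j)
    (hr : r ∈ fp i) (hr' : r ∈ fp j) (hqr : q ≠ r) :
    face i ∩ face j = segment ℝ (pt q) (pt r) ∧ Edge (face i) (segment ℝ (pt q) (pt r)) ∧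
      Edge (face j) (segment ℝ (pt q) (pt r)) := by
  obtain ⟨h1, h2, h3⟩ := inter_faces h
  rw [common_two h hq hq' hr hr' hqr] at h1 h2 h3
  exact ⟨h1, ⟨_, _, pt_injective.ne hqr, rfl, h2⟩, ⟨_, _, pt_injective.ne hqr, rfl, h3⟩⟩

theorem meet {i j : Fin 13} (h : i ≠ j) :
    face i ∩ face j = ∅ ∨
    (∃ v, v ∈ (face i).extremePoints ℝ ∧ v ∈ (face j).extremePoints ℝ ∧ face i ∩ face j = {v}) ∨
    (Edge (face i) (face i ∩ face j) ∧ Edge (face j) (face i ∩ face j)) := by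
  by_cases h2 : ∃ q r, (q ∈ fp i ∧ q ∈ fp j) ∧ (r ∈ fp i ∧ r ∈ fp j) ∧ q ≠ r
  · obtain ⟨q, r, hq, hr, hqr⟩ := h2
    obtain ⟨h1, h2, h3⟩ := edge_of_two h hq.1 hq.2 hr.1 hr.2 hqr
    rw [h1]
    exact Or.inr (Or.inr ⟨h2, h3⟩)
  obtain ⟨h3, h4, h5⟩ := inter_faces h
  by_cases h1 : ∃ q, q ∈ fp i ∧ q ∈ fp j
  · obtain ⟨q, hq⟩ := h1
    have : {q | q ∈ fp i ∧ q ∈ fp j} = {q} := by
      ext r
      constructor
      · intro hr
        by_contra hne
        exact h2 ⟨r, q, hr, hq, hne⟩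
      · rintro rfl
        exact hq
    rw [this, image_singleton, convexHull_singleton] at h3 h4 h5
    exact Or.inr (Or.inl ⟨pt q, h4.mem_extremePoints, h5.mem_extremePoints, h3⟩)
  · have : {q | q ∈ fp i ∧ q ∈ fp j} = ∅ := eq_empty_of_forall_notMem fun q hq => h1 ⟨q, hq⟩
    rw [this, image_empty, convexHull_empty] at h3
    exact Or.inl h3

theorem ends_of_extreme {i : Fin 13} {a b : E3} (h : IsExtreme ℝ (face i) (segment ℝ a b)) :
    a ∈ vs i ∧ b ∈ vs i := by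
  constructor
  · exact extremePoints_convexHull_subset
      (h.extremePoints_subset_extremePoints (left_mem_extremePoints_segment a b))
  · rw [segment_symm] at h
    exact extremePoints_convexHull_subset
      (h.extremePoints_subset_extremePoints (left_mem_extremePoints_segment b a))

theorem edge_to_edge (i : Fin 13) (e : Set E3) (he : Edge (face i) e) :
    ∃! j, j ≠ i ∧ Edge (face j) e := by
  obtain ⟨a, b, hab, rfl, hE⟩ := he
  obtain ⟨⟨q, hq, rfl⟩, ⟨r, hr, rfl⟩⟩ := ends_of_extreme hE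
  have hqr : q ≠ r := fun h => hab (congrArg pt h)
  rcases diag_ok i q hq r hr hqr with ⟨j, hj, hq', hr'⟩ | ⟨D, -, hD⟩
  · refine ⟨j, ⟨hj, (edge_of_two hj.symm hq hq' hr hr' hqr).2.2⟩, ?_⟩
    rintro k ⟨hk, -, -, -, -, hE'⟩
    obtain ⟨⟨q', hq1, hq2⟩, ⟨r', hr1, hr2⟩⟩ := ends_of_extreme hE'
    obtain rfl := pt_injective hq2
    obtain rfl := pt_injective hr2
    exact uniq_ok i j hj _ hq hq' _ hr hr' hqr k hk hq1 hr1
  · obtain ⟨-, -, hc, hd, h1, h2, h3, h4, h5, h6, h7, h8, h9⟩ := hD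
    exact absurd hE (not_extreme_of_cross (pt_mem_face hc) (pt_mem_face hd) _ _ _ _
      h1 h2 h3 h4 h5 h6 h7 h8 h9)

def adjList : List (Fin 13 × Fin 13) :=
  [(0, 1), (0, 2), (0, 3), (0, 11), (0, 12), (1, 2), (1, 4), (1, 5), (1, 7), (1, 8), (1, 12),
   (2, 5), (2, 8), (2, 11), (3, 4), (3, 5), (3, 9), (3, 10), (4, 5), (4, 7), (4, 9), (5, 7),
   (5, 8), (5, 10), (6, 7), (6, 8), (6, 9), (6, 11), (7, 8), (7, 12), (8, 10), (9, 10), (11, 12)]

set_option synthInstance.maxSize 2000 in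
theorem adj_ok : ∀ e ∈ adjList, e.1 ≠ e.2 ∧
    ∃ q ∈ fp e.1, q ∈ fp e.2 ∧ ∃ r ∈ fp e.1, r ∈ fp e.2 ∧ q ≠ r := by
  decide +kernel

set_option synthInstance.maxSize 20000 in
theorem no_colouring : ∀ c1 c2 : Fin 4, c1 ≠ c2 → ∀ c5, c1 ≠ c5 → c2 ≠ c5 →
    ∀ c8, c1 ≠ c8 → c2 ≠ c8 → c5 ≠ c8 → ∀ c7, c1 ≠ c7 → c5 ≠ c7 → c7 ≠ c8 →
    ∀ c4, c1 ≠ c4 → c4 ≠ c5 → c4 ≠ c7 → ∀ c0, c0 ≠ c1 → c0 ≠ c2 →
    ∀ c3, c0 ≠ c3 → c3 ≠ c4 → c3 ≠ c5 → ∀ c12, c0 ≠ c12 → c1 ≠ c12 → c7 ≠ c12 →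
    ∀ c11, c0 ≠ c11 → c2 ≠ c11 → c11 ≠ c12 → ∀ c10, c3 ≠ c10 → c5 ≠ c10 → c8 ≠ c10 →
    ∀ c9, c3 ≠ c9 → c4 ≠ c9 → c9 ≠ c10 →
    ∀ c6, c6 ≠ c7 → c6 ≠ c8 → c6 ≠ c9 → c6 ≠ c11 → False := by
  decide +kernel

theorem not_four : ¬ ∃ c : Fin 13 → Fin 4, ∀ i j, i ≠ j →
    (∃ e, Edge (face i) e ∧ Edge (face j) e) → c i ≠ c j := by
  rintro ⟨c, hc⟩
  have h : ∀ i j, (i, j) ∈ adjList → c i ≠ c j := by
    intro i j hij
    obtain ⟨h1, q, hq, hq', r, hr, hr', hqr⟩ := adj_ok _ hij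
    exact hc i j h1 ⟨_, (edge_of_two h1 hq hq' hr hr' hqr).2⟩
  exact no_colouring (c 1) (c 2) (h _ _ (by decide)) (c 5) (h _ _ (by decide)) (h _ _ (by decide))
    (c 8) (h _ _ (by decide)) (h _ _ (by decide)) (h _ _ (by decide))
    (c 7) (h _ _ (by decide)) (h _ _ (by decide)) (h _ _ (by decide))
    (c 4) (h _ _ (by decide)) (h _ _ (by decide)) (h _ _ (by decide))
    (c 0) (h _ _ (by decide)) (h _ _ (by decide))
    (c 3) (h _ _ (by decide)) (h _ _ (by decide)) (h _ _ (by decide))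
    (c 12) (h _ _ (by decide)) (h _ _ (by decide)) (h _ _ (by decide))
    (c 11) (h _ _ (by decide)) (h _ _ (by decide)) (h _ _ (by decide))
    (c 10) (h _ _ (by decide)) (h _ _ (by decide)) (h _ _ (by decide))
    (c 9) (h _ _ (by decide)) (h _ _ (by decide)) (h _ _ (by decide))
    (c 6) (h _ _ (by decide)) (h _ _ (by decide)) (h _ _ (by decide)) (h _ _ (by decide))

end Pool.Agent.P.MP_c9efbf_co
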